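import Mathlib

/-! General facts on faithful doubly transitive actions of finite groups. -/

open CategoryTheory Module

namespace Pool.Agent.MP_18be4d_al

variable {G : Type} [Group G] {Ω : Type} [MulAction G Ω]

/-- double transitivity, spelled out -/
def TwoTrans (G Ω : Type) [Group G] [MulAction G Ω] : Prop :=
  ∀ x y x' y' : Ω, x ≠ y → x' ≠ y' → ∃ g : G, g • x = x' ∧ g • y = y'

theorem twoTrans_of_base (x₀ y₀ : Ω) (h1 : ∀ x : Ω, ∃ g : G, g • x₀ = x)
    (h2 : ∀ y : Ω, y ≠ x₀ → ∃ g : G, g • x₀ = x₀ ∧ g • y₀ = y) : TwoTrans G Ω := by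
  have key : ∀ x y : Ω, x ≠ y → ∃ g : G, g • x₀ = x ∧ g • y₀ = y := by
    intro x y hxy
    obtain ⟨g, hg⟩ := h1 x
    have : g⁻¹ • y ≠ x₀ := by
      intro h
      apply hxy
      rw [← hg, ← h, smul_inv_smul]
    obtain ⟨k, hk1, hk2⟩ := h2 _ this
    exact ⟨g * k, by rw [mul_smul, hk1, hg], by rw [mul_smul, hk2, smul_inv_smul]⟩
  intro x y x' y' h h'
  obtain ⟨g, hg1, hg2⟩ := key x y h
  obtain ⟨k, hk1, hk2⟩ := key x' y' h'
  refine ⟨k * g⁻¹, ?_, ?_⟩
  · rw [mul_smul, ← hg1, inv_smul_smul, hk1]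
  · rw [mul_smul, ← hg2, inv_smul_smul, hk2]

theorem TwoTrans.trans [Nontrivial Ω] (h : TwoTrans G Ω) (x x' : Ω) : ∃ g : G, g • x = x' := by
  obtain ⟨y, hy⟩ := exists_ne x
  obtain ⟨y', hy'⟩ := exists_ne x'
  obtain ⟨g, hg, -⟩ := h x y x' y' hy.symm hy'.symm
  exact ⟨g, hg⟩

/-- the permutation representation on functions -/
noncomputable def permRep (G Ω : Type) [Group G] [MulAction G Ω] :
    Representation ℂ G (Ω → ℂ) where
  toFun g := LinearMap.funLeft ℂ ℂ (fun x : Ω => g⁻¹ • x)
  map_one' := by ext f x; simp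
  map_mul' g h := by ext f x; simp [LinearMap.funLeft, mul_smul]

variable [Fintype Ω]

/-- the sum functional -/
noncomputable def sumFun (Ω : Type) [Fintype Ω] : (Ω → ℂ) →ₗ[ℂ] ℂ :=
  ∑ x : Ω, LinearMap.proj x

theorem sumFun_apply (f : Ω → ℂ) : sumFun Ω f = ∑ x, f x := by
  simp [sumFun]

theorem sumFun_permRep (g : G) (f : Ω → ℂ) : sumFun Ω (permRep G Ω g f) = sumFun Ω f := by
  rw [sumFun_apply, sumFun_apply]
  exact Equiv.sum_comp (MulAction.toPerm g⁻¹) f

/-- the deleted permutation representation -/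
noncomputable def delRep (G Ω : Type) [Group G] [MulAction G Ω] [Fintype Ω] :
    Representation ℂ G (LinearMap.ker (sumFun Ω)) :=
  (permRep G Ω).subrepresentation (LinearMap.ker (sumFun Ω)) (by
    intro g f hf
    simp only [Submodule.mem_comap, LinearMap.mem_ker] at hf ⊢
    rw [sumFun_permRep, hf])

open Classical in
theorem trace_permRep (g : G) :
    LinearMap.trace ℂ _ (permRep G Ω g) =
      ((Finset.univ.filter (fun x : Ω => g • x = x)).card : ℂ) := by
  rw [LinearMap.trace_eq_matrix_trace ℂ (Pi.basisFun ℂ Ω), Matrix.trace]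
  rw [Finset.card_filter]
  push_cast
  apply Finset.sum_congr rfl
  intro x _
  simp only [Matrix.diag, LinearMap.toMatrix_apply, Pi.basisFun_apply, Pi.basisFun_repr, permRep,
    MonoidHom.coe_mk, OneHom.coe_mk, LinearMap.funLeft_apply, Pi.single_apply]
  have : (g⁻¹ • x = x) ↔ (g • x = x) := by
    rw [inv_smul_eq_iff, eq_comm]
  simp [this]

open Classical in
theorem trace_delRep [Nonempty Ω] (g : G) :
    LinearMap.trace ℂ _ (delRep G Ω g) =
      ((Finset.univ.filter (fun x : Ω => g • x = x)).card : ℂ) - 1 := by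
  have hn : (Fintype.card Ω : ℂ) ≠ 0 := by exact_mod_cast Fintype.card_ne_zero
  let J : (Ω → ℂ) →ₗ[ℂ] (Ω → ℂ) :=
    (sumFun Ω).smulRight (fun _ => (Fintype.card Ω : ℂ)⁻¹)
  have hJ : LinearMap.trace ℂ _ J = 1 := by
    simp only [J]
    rw [LinearMap.trace_smulRight, sumFun_apply]
    simp [hn]
  let F : (Ω → ℂ) →ₗ[ℂ] (Ω → ℂ) := permRep G Ω g - J
  have hF : ∀ f, F f ∈ LinearMap.ker (sumFun Ω) := by
    intro f
    simp only [F, J, LinearMap.mem_ker, LinearMap.sub_apply, map_sub, sumFun_permRep,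
      LinearMap.smulRight_apply, map_smul]
    rw [sumFun_apply (fun _ => (Fintype.card Ω : ℂ)⁻¹)]
    simp [hn]
  have h1 := LinearMap.trace_restrict_eq_of_forall_mem (LinearMap.ker (sumFun Ω)) F hF
  have h2 : delRep G Ω g = F.restrict (fun x _ => hF x) := by
    ext f x
    have hf : sumFun Ω f = 0 := f.2
    simp [delRep, F, J, Representation.subrepresentation, LinearMap.restrict_apply, hf]
  rw [h2, h1]
  simp only [F, map_sub, hJ, trace_permRep]

open Classical in
theorem sum_fix [Fintype G] {X : Type} [Fintype X] [MulAction G X] (n : ℕ)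
    (hn : Nat.card (Quotient (MulAction.orbitRel G X)) = n) :
    ∑ g : G, ((Finset.univ.filter (fun x : X => g • x = x)).card : ℂ) = n * Fintype.card G := by
  have h := MulAction.sum_card_fixedBy_eq_card_orbits_mul_card_group G X
  rw [← Nat.card_eq_fintype_card (α := Quotient _), hn] at h
  rw [← Nat.cast_mul, ← h]
  push_cast
  apply Finset.sum_congr rfl
  intro g _
  congr 1
  rw [Fintype.card_subtype]
  congr 1

open Classical in
theorem exists_simple [Finite G] [Nontrivial Ω] [FaithfulSMul G Ω] (h : TwoTrans G Ω) :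
    ∃ V : FDRep ℂ G, Simple V ∧ finrank ℂ V + 1 = Fintype.card Ω ∧
      ∀ g : G, V.character g = V.character 1 → g = 1 := by
  have := Fintype.ofFinite G
  let V : FDRep ℂ G := FDRep.of (delRep G Ω)
  have hχ : ∀ g : G, V.character g =
      ((Finset.univ.filter (fun x : Ω => g • x = x)).card : ℂ) - 1 := fun g => trace_delRep g
  have hq1 : Nat.card (Quotient (MulAction.orbitRel G Ω)) = 1 := by
    rw [Nat.card_eq_one_iff_unique]
    refine ⟨⟨fun a b => ?_⟩, ⟨Quotient.mk _ (Classical.arbitrary Ω)⟩⟩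
    induction a using Quotient.inductionOn with | _ a => ?_
    induction b using Quotient.inductionOn with | _ b => ?_
    apply Quotient.sound
    exact h.trans b a
  have hq2 : Nat.card (Quotient (MulAction.orbitRel G (Ω × Ω))) = 2 := by
    rw [Nat.card_eq_two_iff]
    obtain ⟨x, y, hxy⟩ := exists_pair_ne Ω
    refine ⟨Quotient.mk _ (x, x), Quotient.mk _ (x, y), ?_, ?_⟩
    · intro he
      obtain ⟨g, hg⟩ := Quotient.exact he
      have h1 : g • x = x := congrArg Prod.fst hg
      have h2 : g • y = x := congrArg Prod.snd hg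
      exact hxy (smul_left_cancel g (h1.trans h2.symm))
    · rw [Set.eq_univ_iff_forall]
      intro a
      induction a using Quotient.inductionOn with | _ a => ?_
      obtain ⟨u, v⟩ := a
      by_cases huv : u = v
      · left
        apply Quotient.sound
        obtain ⟨g, hg⟩ := h.trans x u
        exact ⟨g, Prod.ext hg (hg.trans huv)⟩
      · right
        apply Quotient.sound
        obtain ⟨g, hg1, hg2⟩ := h x y u v hxy huv
        exact ⟨g, Prod.ext hg1 hg2⟩
  have s1 := sum_fix (G := G) 1 hq1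
  have s2 := sum_fix (G := G) 2 hq2
  have e2 : ∀ g : G, ((Finset.univ.filter (fun x : Ω × Ω => g • x = x)).card : ℂ) =
      ((Finset.univ.filter (fun x : Ω => g • x = x)).card : ℂ) ^ 2 := by
    intro g
    rw [sq, ← Nat.cast_mul, ← Finset.card_product]
    congr 2
    ext ⟨u, v⟩
    simp
  have e3 : ∀ g : G, (Finset.univ.filter (fun x : Ω => g⁻¹ • x = x)) =
      (Finset.univ.filter (fun x : Ω => g • x = x)) := by
    intro g
    ext x
    simp only [Finset.mem_filter, Finset.mem_univ, true_and]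
    rw [inv_smul_eq_iff, eq_comm]
  refine ⟨V, ?_, ?_, ?_⟩
  · rw [FDRep.simple_iff_char_is_norm_one]
    simp_rw [hχ, e3]
    have s2' : ∑ g : G, ((Finset.univ.filter (fun x : Ω => g • x = x)).card : ℂ) ^ 2 =
        ((2 : ℕ) : ℂ) * Fintype.card G := by
      rw [← s2]
      apply Finset.sum_congr rfl
      intro g _
      rw [← e2]
      congr
    have : ∀ g : G, (((Finset.univ.filter (fun x : Ω => g • x = x)).card : ℂ) - 1) *
        (((Finset.univ.filter (fun x : Ω => g • x = x)).card : ℂ) - 1) =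
        ((Finset.univ.filter (fun x : Ω => g • x = x)).card : ℂ) ^ 2 -
        2 * ((Finset.univ.filter (fun x : Ω => g • x = x)).card : ℂ) + 1 := by
      intro g; ring
    simp_rw [this]
    rw [Finset.sum_add_distrib, Finset.sum_sub_distrib, ← Finset.mul_sum, s1, s2']
    simp
  · have h1 := hχ 1
    rw [FDRep.char_one] at h1
    simp only [one_smul, Finset.filter_true, Finset.card_univ] at h1
    have : ((finrank ℂ V + 1 : ℕ) : ℂ) = (Fintype.card Ω : ℂ) := by
      push_cast; rw [h1]; ring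
    exact_mod_cast this
  · intro g hg
    rw [hχ, hχ] at hg
    simp only [one_smul, Finset.filter_true, sub_left_inj, Nat.cast_inj] at hg
    have h3 := Finset.eq_univ_of_card _ (hg.trans Finset.card_univ)
    apply FaithfulSMul.eq_of_smul_eq_smul (α := Ω)
    intro x
    have : x ∈ Finset.univ.filter (fun x : Ω => g • x = x) := by
      rw [h3]; exact Finset.mem_univ x
    simpa using this

omit [Fintype Ω] in
theorem normal_trans [FaithfulSMul G Ω] (h : TwoTrans G Ω) (N : Subgroup G) (hN : N.Normal)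
    (hne : N ≠ ⊥) : ∃ x : Ω, ∀ y : Ω, ∃ n ∈ N, n • x = y := by
  obtain ⟨n, hn, hn1⟩ : ∃ n ∈ N, n ≠ 1 := by
    by_contra hc
    push Not at hc
    exact hne ((Subgroup.eq_bot_iff_forall N).2 hc)
  obtain ⟨x, hx⟩ : ∃ x : Ω, n • x ≠ x := by
    by_contra hc
    push Not at hc
    exact hn1 (FaithfulSMul.eq_of_smul_eq_smul (α := Ω) (by simpa using hc))
  refine ⟨x, fun y => ?_⟩
  by_cases hy : y = x
  · exact ⟨1, N.one_mem, by simp [hy]⟩
  · obtain ⟨g, hg1, hg2⟩ := h x (n • x) x y hx.symm (Ne.symm hy)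
    refine ⟨g * n * g⁻¹, hN.conj_mem n hn g, ?_⟩
    have : g⁻¹ • x = x := by rw [inv_smul_eq_iff, hg1]
    rw [mul_smul, mul_smul, this, hg2]

theorem nilpotent_normal_eq_bot [Finite G] [FaithfulSMul G Ω] (h : TwoTrans G Ω)
    (r s : ℕ) (hr : r.Prime) (hs : s.Prime) (hrs : r ≠ s)
    (h1 : r ∣ Fintype.card Ω) (h2 : s ∣ Fintype.card Ω)
    (N : Subgroup G) (hN : N.Normal) (hnil : Group.IsNilpotent N) : N = ⊥ := by
  by_contra hne
  have hc : Nat.card N ≠ 1 := by
    intro h1
    exact hne (Subgroup.eq_bot_of_card_eq N h1)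
  obtain ⟨l, hl, hld⟩ := Nat.exists_prime_and_dvd hc
  have : Fact l.Prime := ⟨hl⟩
  let P : Sylow l N := default
  have hPn : (P : Subgroup N).Normal := by
    have := (Group.isNilpotent_of_finite_tfae (G := N)).out 0 3
    exact (this.1 hnil) l inferInstance P
  have hPc : (P : Subgroup N).Characteristic := Sylow.characteristic_of_normal P hPn
  have hPne : (P : Subgroup N) ≠ ⊥ := P.ne_bot_of_dvd_card hld
  let R : Subgroup G := (P : Subgroup N).map N.subtype
  have hRn : R.Normal := inferInstance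
  have hRne : R ≠ ⊥ := by
    intro h0
    exact hPne ((Subgroup.map_eq_bot_iff_of_injective _ N.subtype_injective).1 h0)
  have hRp : IsPGroup l R := P.isPGroup'.map _
  obtain ⟨x, hx⟩ := normal_trans h R hRn hRne
  obtain ⟨k, hk⟩ := hRp.card_orbit x
  have : MulAction.orbit R x = Set.univ := by
    rw [Set.eq_univ_iff_forall]
    intro y
    obtain ⟨n, hn, hny⟩ := hx y
    exact ⟨⟨n, hn⟩, hny⟩
  rw [this, Nat.card_congr (Equiv.Set.univ Ω), Nat.card_eq_fintype_card] at hk
  rw [hk] at h1 h2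
  exact hrs (((Nat.prime_dvd_prime_iff_eq hr hl).1 (hr.dvd_of_dvd_pow h1)).trans
    ((Nat.prime_dvd_prime_iff_eq hs hl).1 (hs.dvd_of_dvd_pow h2)).symm)

theorem card_dvd_of_trans [Finite G] [Nontrivial Ω] (h : TwoTrans G Ω) :
    Fintype.card Ω ∣ Nat.card G := by
  obtain ⟨x⟩ : Nonempty Ω := inferInstance
  have : MulAction.orbit G x = Set.univ := by
    rw [Set.eq_univ_iff_forall]
    intro y
    exact h.trans x y
  have h2 := Nat.card_congr (MulAction.orbitProdStabilizerEquivGroup G x)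
  rw [Nat.card_prod, this, Nat.card_congr (Equiv.Set.univ Ω), Nat.card_eq_fintype_card] at h2
  exact ⟨_, h2.symm⟩

end Pool.Agent.MP_18be4d_al
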