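import Pool.Agent.MP_18be4d_al.Centralizer

/-! Elements with a repeated eigenvalue. -/

open Finset Matrix

set_option linter.unusedSectionVars false

namespace Pool.Agent.MP_18be4d_al

variable {K : Type} [Field K] [Fintype K] [UF K]

theorem iso_in_plane (U : Submodule K (Fin 3 → K)) (hU : 2 ≤ Module.finrank K U) :
    ∃ v ∈ U, v ≠ 0 ∧ HF v v = 0 := by
  have hne : U ≠ ⊥ := by
    rintro rfl
    simp at hU
  obtain ⟨v, hv, hv0⟩ := (Submodule.ne_bot_iff U).1 hne
  by_cases h1 : HF v v = 0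
  · exact ⟨v, hv, hv0, h1⟩
  let ℓ : U →ₗ[K] K :=
    { toFun := fun x => HF x v
      map_add' := fun x y => HF_add_left _ _ _
      map_smul' := fun c x => HF_smul_left _ _ _ }
  have hk : LinearMap.ker ℓ ≠ ⊥ := LinearMap.ker_ne_bot_of_finrank_lt (by simp; omega)
  obtain ⟨w, hw, hw0⟩ := (Submodule.ne_bot_iff _).1 hk
  have hwv : HF (w : Fin 3 → K) v = 0 := hw
  have hvw : HF v w = 0 := by rw [← bar_HF, hwv, map_zero]
  by_cases h2 : HF (w : Fin 3 → K) w = 0
  · exact ⟨w, w.2, fun h => hw0 (Subtype.ext h), h2⟩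
  obtain ⟨c, hc, hc'⟩ := exists_sqrt_fixed (HF v v / HF (w : Fin 3 → K) w) (by rw [map_div₀, bar_HF, bar_HF])
  refine ⟨v + c • (w : Fin 3 → K), U.add_mem hv (U.smul_mem c w.2), ?_, ?_⟩
  · intro h0
    apply h1
    have : HF (v + c • (w : Fin 3 → K)) v = HF v v := by
      rw [HF_add_left, HF_smul_left, hwv, mul_zero, add_zero]
    rw [← this, h0]
    simp [HF]
  · simp only [HF_add_left, HF_add_right, HF_smul_left, HF_smul_right, hwv, hvw, hc']
    have : c ^ 2 * HF (w : Fin 3 → K) w = HF v v := by rw [hc]; field_simp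
    linear_combination this + HF v v * two_eq_zero K

theorem exists_iso_eigen (a : SU K) (ha : tr a * bar (tr a) = 1) :
    ∃ (v : Fin 3 → K) (l : K), v ≠ 0 ∧ HF v v = 0 ∧ mat a *ᵥ v = l • v := by
  obtain ⟨s, hs⟩ := exists_sqrt (bar (tr a))
  have hs1 : s * bar s = 1 := by
    apply sq_inj
    rw [mul_pow, ← map_pow, hs, bar_bar, mul_comm, ha, one_pow]
  set t := tr a with ht
  have hst : s ^ 2 * t = 1 := by rw [hs, mul_comm, ha]
  let A := mat a - s • (1 : Matrix (Fin 3) (Fin 3) K)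
  let B := mat a - t • (1 : Matrix (Fin 3) (Fin 3) K)
  have hA : ∀ v, A *ᵥ v = mat a *ᵥ v - s • v := fun v => by
    simp only [A, sub_mulVec, smul_mulVec, one_mulVec]
  have hB : ∀ v, B *ᵥ v = mat a *ᵥ v - t • v := fun v => by
    simp only [B, sub_mulVec, smul_mulVec, one_mulVec]
  have hCH : A * (A * B) = 0 := by
    have h := cayley_three (mat a)
    rw [← bar_tr, det_mat, ← tr, ← ht, ← hs] at h
    rw [← h]
    simp only [A, B, Matrix.mul_sub, Matrix.sub_mul, Matrix.smul_mul, Matrix.mul_smul,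
      Matrix.one_mul, Matrix.mul_one, smul_sub, smul_smul, Matrix.mul_assoc]
    ext i j
    simp only [Matrix.sub_apply, Matrix.add_apply, Matrix.smul_apply, smul_eq_mul]
    linear_combination (-s * (mat a * mat a) i j + s * t * mat a i j) * two_eq_zero K -
      (1 : Matrix (Fin 3) (Fin 3) K) i j * hst
  by_cases hM : A * B = 0
  · have h1 : LinearMap.range (Matrix.toLin' B) ≤ LinearMap.ker (Matrix.toLin' A) := by
      rintro _ ⟨u, rfl⟩
      simp only [LinearMap.mem_ker, toLin'_apply, mulVec_mulVec, hM, zero_mulVec]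
    have h2 := LinearMap.finrank_range_add_finrank_ker (Matrix.toLin' B)
    have h3 := Submodule.finrank_mono h1
    simp only [Module.finrank_fintype_fun_eq_card, Fintype.card_fin] at h2
    by_cases h4 : 2 ≤ Module.finrank K (LinearMap.ker (Matrix.toLin' A))
    · obtain ⟨v, hv, hv0, hv1⟩ := iso_in_plane _ h4
      rw [LinearMap.mem_ker, toLin'_apply, hA, sub_eq_zero] at hv
      exact ⟨v, s, hv0, hv1, hv⟩
    · obtain ⟨v, hv, hv0, hv1⟩ := iso_in_plane (LinearMap.ker (Matrix.toLin' B)) (by omega)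
      rw [LinearMap.mem_ker, toLin'_apply, hB, sub_eq_zero] at hv
      exact ⟨v, t, hv0, hv1, hv⟩
  · obtain ⟨u, hu⟩ : ∃ u, (A * B) *ᵥ u ≠ 0 := by
      by_contra hc
      push Not at hc
      apply hM
      apply Matrix.toLin'.injective
      apply LinearMap.ext
      intro u
      rw [toLin'_apply, hc]; simp
    have h1 : mat a *ᵥ ((A * B) *ᵥ u) = s • ((A * B) *ᵥ u) := by
      rw [← sub_eq_zero, ← hA, mulVec_mulVec, hCH, zero_mulVec]
    refine ⟨_, s, hu, ?_, h1⟩
    set v := (A * B) *ᵥ u with hv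
    have h2 : v = mat a *ᵥ (B *ᵥ u) - s • (B *ᵥ u) := by rw [hv, ← mulVec_mulVec, hA]
    have h3 := HF_mat a (B *ᵥ u) v
    rw [h1, HF_smul_right] at h3
    calc HF v v = HF (mat a *ᵥ (B *ᵥ u) - s • (B *ᵥ u)) v := by rw [← h2]
      _ = 0 := by
        rw [HF_sub_left, HF_smul_left, ← h3]
        linear_combination (-HF (mat a *ᵥ (B *ᵥ u)) v) * hs1

/-- upper triangular elements -/
def Up (a : SU K) : Prop := mat a 1 0 = 0 ∧ mat a 2 0 = 0

theorem Up.struct {a : SU K} (h : Up a) : mat a 2 1 = 0 ∧ mat a 0 0 * bar (mat a 2 2) = 1 ∧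
    mat a 1 1 * bar (mat a 1 1) = 1 ∧ mat a 0 0 * mat a 1 1 * mat a 2 2 = 1 ∧
    mat a 0 1 * bar (mat a 2 2) + mat a 1 1 * bar (mat a 1 2) = 0 ∧
    mat a 0 2 * bar (mat a 2 2) + mat a 1 2 * bar (mat a 1 2) + mat a 2 2 * bar (mat a 0 2) = 0 := by
  obtain ⟨h1, h2⟩ := h
  have h01 := unit_entry a 0 1
  have h02 := unit_entry a 0 2
  have h11 := unit_entry a 1 1
  have h12 := unit_entry a 1 2
  have h22 := unit_entry a 2 2
  have hd := det_mat a
  rw [det_fin_three] at hd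
  simp only [h1, h2, zero_mul, add_zero, mul_zero, sub_zero] at h01 h02 hd
  have e02 : mat a 0 0 * bar (mat a 2 2) = 1 := by simpa [JJ] using h02
  have e21 : mat a 2 1 = 0 := by
    have : mat a 0 0 * bar (mat a 2 1) = 0 := by simpa [JJ] using h01
    exact bar_eq_zero.1 ((mul_eq_zero.1 this).resolve_left (left_ne_zero_of_mul_eq_one e02))
  simp only [e21, zero_mul, add_zero, mul_zero, sub_zero, map_zero, zero_add] at h11 h12 hd
  refine ⟨e21, e02, by simpa [JJ] using h11, hd, by simpa [JJ] using h12, by simpa [JJ] using h22⟩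

/-- upper triangular elements with first eigenvalue of norm one -/
def Up0 (a : SU K) : Prop := Up a ∧ mat a 0 0 * bar (mat a 0 0) = 1

theorem Up0.diag {a : SU K} (h : Up0 a) : mat a 2 2 = mat a 0 0 := by
  have h1 := h.1.struct.2.1
  have h2 := h.2
  have h3 : bar (mat a 2 2) = bar (mat a 0 0) :=
    mul_left_cancel₀ (left_ne_zero_of_mul_eq_one h1) (h1.trans h2.symm)
  exact bar.injective h3

theorem Up0.ext {a b : SU K} (ha : Up0 a) (hb : Up0 b) (h1 : mat a 0 0 = mat b 0 0)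
    (h2 : mat a 1 2 = mat b 1 2) (h3 : mat a 0 2 = mat b 0 2) : a = b := by
  obtain ⟨a1, a2, -, a4, a5, -⟩ := ha.1.struct
  obtain ⟨b1, -, -, b4, b5, -⟩ := hb.1.struct
  have h4 : mat a 2 2 = mat b 2 2 := by rw [ha.diag, hb.diag, h1]
  have h5 : mat a 1 1 = mat b 1 1 := by
    rw [← h1, ← h4] at b4
    calc mat a 1 1 = mat a 1 1 * (mat a 0 0 * mat b 1 1 * mat a 2 2) := by rw [b4, mul_one]
      _ = (mat a 0 0 * mat a 1 1 * mat a 2 2) * mat b 1 1 := by ring
      _ = _ := by rw [a4, one_mul]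
  have h6 : mat a 0 1 = mat b 0 1 := by
    rw [← h4, ← h5, ← h2] at b5
    apply mul_right_cancel₀ (right_ne_zero_of_mul_eq_one a2)
    linear_combination a5 - b5
  apply mat_inj
  ext i j
  fin_cases i <;> fin_cases j
  · exact h1
  · exact h6
  · exact h3
  · exact ha.1.1.trans hb.1.1.symm
  · exact h5
  · exact h2
  · exact ha.1.2.trans hb.1.2.symm
  · exact a1.trans b1.symm
  · exact h4

theorem conj_eq (g a : SU K) : mat g * mat (g⁻¹ * a * g) = mat a * mat g := by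
  rw [← mat_mul, ← mat_mul]; congr 1; group

theorem isConj_conj (g a : SU K) : IsConj (g⁻¹ * a * g) a := isConj_iff.2 ⟨g, by group⟩

theorem conj_uu {a : SU K} (ha : Up0 a) (β : K) : ∃ a' : SU K, IsConj a' a ∧ Up0 a' ∧
    mat a' 0 0 = mat a 0 0 ∧ mat a' 1 2 = mat a 1 2 + β * (mat a 1 1 - mat a 0 0) ∧
    mat a' 0 2 = mat a 0 2 + mat a 0 1 * β + bar β * mat a' 1 2 := by
  let g := uu β _ (om_mem_PP β)
  have e := conj_eq g a
  set a' := g⁻¹ * a * g
  have e00 := congrFun (congrFun e 0) 0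
  have e10 := congrFun (congrFun e 1) 0
  have e20 := congrFun (congrFun e 2) 0
  have e02 := congrFun (congrFun e 0) 2
  have e12 := congrFun (congrFun e 1) 2
  have e22 := congrFun (congrFun e 2) 2
  have h21 := ha.1.struct.1
  have h22 := ha.diag
  simp [g, mat_uu, Matrix.mul_apply, Fin.sum_univ_three, ha.1.1, ha.1.2, h21, h22]
    at e00 e10 e20 e02 e12 e22
  simp only [e20, mul_zero, add_zero] at e10 e00
  simp only [e10, mul_zero, neg_zero, add_zero] at e00
  refine ⟨a', isConj_conj g a, ⟨⟨e10, e20⟩, by rw [e00]; exact ha.2⟩, e00, ?_, ?_⟩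
  · rw [e22] at e12
    linear_combination e12
  · rw [e22] at e02
    linear_combination e02

theorem conj_tt {a : SU K} (ha : Up0 a) (τ : K) (h0 : τ ≠ 0) (h1 : bar τ = τ) :
    ∃ a' : SU K, IsConj a' a ∧ Up0 a' ∧
    mat a' 0 0 = mat a 0 0 ∧ mat a' 1 2 * τ = mat a 1 2 ∧ mat a' 0 2 * τ ^ 2 = mat a 0 2 := by
  let g := tt τ h0
  have e := conj_eq g a
  set a' := g⁻¹ * a * g
  have e00 := congrFun (congrFun e 0) 0
  have e10 := congrFun (congrFun e 1) 0
  have e20 := congrFun (congrFun e 2) 0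
  have e02 := congrFun (congrFun e 0) 2
  have e12 := congrFun (congrFun e 1) 2
  simp [g, mat_tt, Matrix.mul_apply, Fin.sum_univ_three, ha.1.1, ha.1.2, h0, h1]
    at e00 e10 e20 e02 e12
  have e00' : mat a' 0 0 = mat a 0 0 := mul_left_cancel₀ h0 (by rw [e00, mul_comm])
  refine ⟨a', isConj_conj g a, ⟨⟨e10, e20⟩, by rw [e00']; exact ha.2⟩, e00', ?_, ?_⟩
  · rw [e12]; field_simp
  · field_simp at e02
    linear_combination e02

/-- representatives -/
def Rep (a : SU K) : Prop := Up0 a ∧ ((mat a 1 2 = 0 ∧ mat a 0 2 = 0) ∨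
  (mat a 1 2 = 0 ∧ mat a 0 2 = mat a 0 0) ∨
  (mat a 0 0 ^ 3 = 1 ∧ mat a 1 2 * bar (mat a 1 2) = 1 ∧ mat a 0 2 = om K * mat a 0 0))

theorem rep_caseA {a : SU K} (ha : Up0 a) (h : mat a 1 2 = 0) : ∃ r, Rep r ∧ IsConj r a := by
  by_cases h2 : mat a 0 2 = 0
  · exact ⟨a, ⟨ha, Or.inl ⟨h, h2⟩⟩, IsConj.refl a⟩
  have h3 := ha.1.struct.2.2.2.2.2
  rw [h, ha.diag] at h3
  obtain ⟨τ, hτ, hτ'⟩ := exists_sqrt_fixed (mat a 0 2 * bar (mat a 0 0)) (by
    rw [map_mul, bar_bar]
    linear_combination h3 - (mat a 0 2 * bar (mat a 0 0)) * two_eq_zero K)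
  have h4 : bar (mat a 0 0) ≠ 0 := right_ne_zero_of_mul_eq_one ha.2
  have h0 : τ ≠ 0 := by
    rintro rfl
    exact mul_ne_zero h2 h4 (by rw [← hτ]; ring)
  obtain ⟨a', c1, c2, c3, c4, c5⟩ := conj_tt ha τ h0 hτ'
  refine ⟨a', ⟨c2, Or.inr (Or.inl ⟨?_, ?_⟩)⟩, c1⟩
  · rw [h] at c4
    exact (mul_eq_zero.1 c4).resolve_right h0
  · rw [hτ] at c5
    rw [c3]
    apply mul_right_cancel₀ (mul_ne_zero h2 h4)
    linear_combination c5 - mat a 0 2 * ha.2

theorem rep_caseC {a : SU K} (ha : Up0 a) (h : mat a 0 0 ^ 3 = 1)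
    (hb : mat a 1 2 * bar (mat a 1 2) = 1) : ∃ r, Rep r ∧ IsConj r a := by
  obtain ⟨-, -, -, a4, a5, a6⟩ := ha.1.struct
  have a2 := ha.2
  rw [ha.diag] at a4 a5 a6
  have h11 : mat a 1 1 = mat a 0 0 := by
    linear_combination mat a 0 0 * a4 - mat a 1 1 * h
  rw [h11] at a5
  have hw := om_add_bar (K := K)
  have two := two_eq_zero K
  set μ := mat a 0 0
  set b := mat a 1 2
  set c := mat a 0 2
  set w := om K
  set e := c * bar μ + w with he
  have he' : bar e = e := by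
    rw [he, map_add, map_mul, bar_bar]
    linear_combination a6 - hb + hw - (c * bar μ + w + 1) * two
  obtain ⟨a', c1, c2, c3, c4, c5⟩ := conj_uu ha (e * w * bar μ * b)
  rw [h11, sub_self, mul_zero, add_zero] at c4
  refine ⟨a', ⟨c2, Or.inr (Or.inr ⟨by rw [c3]; exact h, by rw [c4]; exact hb, ?_⟩)⟩, c1⟩
  rw [c5, c4, c3]
  simp only [map_mul, bar_bar, he']
  have h01 : mat a 0 1 = - μ ^ 2 * bar b := by
    linear_combination μ * a5 - mat a 0 1 * a2
  rw [h01]
  have k1 : μ ^ 2 * bar b * (e * w * bar μ * b) = μ * e * w := by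
    linear_combination (μ * e * w * b * bar b) * a2 + (μ * e * w) * hb
  have k2 : e * bar w * μ * bar b * b = e * bar w * μ := by
    linear_combination (e * bar w * μ) * hb
  have k3 : μ * e = c + μ * w := by
    rw [he]; linear_combination c * a2
  linear_combination (-1) * k1 + k2 + μ * e * hw - k3 - (μ * e * w + μ * w) * two

theorem rep_of_Up0 {a : SU K} (ha : Up0 a) : ∃ r, Rep r ∧ IsConj r a := by
  by_cases h1 : mat a 1 2 = 0
  · exact rep_caseA ha h1
  by_cases h2 : mat a 1 1 = mat a 0 0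
  · have h3 : mat a 0 0 ^ 3 = 1 := by
      have a4 := ha.1.struct.2.2.2.1
      rw [ha.diag, h2] at a4
      linear_combination a4
    obtain ⟨τ, hτ, hτ'⟩ := exists_sqrt_fixed (mat a 1 2 * bar (mat a 1 2)) (by
      rw [map_mul, bar_bar, mul_comm])
    have h4 : mat a 1 2 * bar (mat a 1 2) ≠ 0 := mul_ne_zero h1 (fun h => h1 (bar_eq_zero.1 h))
    have h0 : τ ≠ 0 := by
      rintro rfl
      exact h4 (by rw [← hτ]; ring)
    obtain ⟨a', c1, c2, c3, c4, -⟩ := conj_tt ha τ h0 hτ'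
    obtain ⟨r, hr, hr'⟩ := rep_caseC c2 (by rw [c3, h3]) (by
      apply mul_right_cancel₀ h4
      rw [one_mul]
      conv_lhs => rw [← hτ]
      rw [← c4, map_mul, hτ']
      ring)
    exact ⟨r, hr, hr'.trans c1⟩
  · obtain ⟨a', c1, c2, -, c4, -⟩ := conj_uu ha (mat a 1 2 / (mat a 0 0 - mat a 1 1))
    obtain ⟨r, hr, hr'⟩ := rep_caseA c2 (by
      have : mat a 0 0 - mat a 1 1 ≠ 0 := sub_ne_zero.2 (Ne.symm h2)
      rw [c4]; field_simp; ring)
    exact ⟨r, hr, hr'.trans c1⟩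

theorem rep_of_tr (a : SU K) (ha : tr a * bar (tr a) = 1) : ∃ r, Rep r ∧ IsConj r a := by
  obtain ⟨v, l, hv0, hv1, hv⟩ := exists_iso_eigen a ha
  obtain ⟨g, d, hd, rfl⟩ := trans_iso v hv0 hv1
  set a' := g⁻¹ * a * g with ha'
  have h1 : mat a' *ᵥ e0 K = l • e0 K := by
    rw [mulVec_smul, smul_comm] at hv
    have h2 := smul_right_injective _ hd hv
    rw [ha', mat_mul, mat_mul, ← mulVec_mulVec, ← mulVec_mulVec, h2, mulVec_smul, mulVec_mulVec,
      mat_inv_mul, one_mulVec]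
  have hUp : Up a' := by
    constructor
    · simpa [e0, mulVec, dotProduct, Fin.sum_univ_three] using congrFun h1 1
    · simpa [e0, mulVec, dotProduct, Fin.sum_univ_three] using congrFun h1 2
  have ht : tr a' = tr a := by
    have := tr_conj g⁻¹ a
    rwa [inv_inv] at this
  obtain ⟨-, a2, a3, a4, -, -⟩ := hUp.struct
  rw [← ht, tr, trace_fin_three, map_add, map_add] at ha
  have a2' := congrArg bar a2
  rw [map_mul, bar_bar, map_one] at a2'
  set μ := mat a' 0 0 with hμ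
  set ν := mat a' 1 1
  set ρ := mat a' 2 2
  have b1 : bar ρ = ν * ρ := by linear_combination ν * ρ * a2 - bar ρ * a4
  have b2 : bar ν = μ * ρ := by linear_combination μ * ρ * a3 - bar ν * a4
  have b3 : bar μ = μ * ν := by linear_combination μ * ν * a2' - bar μ * a4
  have b4 : (μ - ν) * (μ - ρ) * (ν - ρ) = 0 := by
    rw [b1, b2, b3] at ha
    linear_combination ha - a4 - (μ * ν ^ 2 + μ * ν * ρ + μ ^ 2 * ρ + ν * ρ ^ 2) * two_eq_zero K
  have hUp0 : Up0 a' := by
    refine ⟨hUp, ?_⟩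
    rw [← hμ]
    rcases mul_eq_zero.1 b4 with h | h
    · rcases mul_eq_zero.1 h with h | h
      · rw [sub_eq_zero.1 h]; exact a3
      · rw [← sub_eq_zero.1 h] at a2; exact a2
    · rw [sub_eq_zero.1 h] at a3
      have : μ = ρ := mul_right_cancel₀ (right_ne_zero_of_mul_eq_one a2) (a2.trans a3.symm)
      rw [this]; exact a3
  obtain ⟨r, hr, hr'⟩ := rep_of_Up0 hUp0
  exact ⟨r, hr, hr'.trans (isConj_conj g a)⟩

open Classical in
theorem card_Rep : (univ.filter (fun a : SU K => Rep a)).card ≤ 5 * (qq K + 1) := by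
  let R1 := univ.filter (fun a : SU K => Up0 a ∧ mat a 1 2 = 0 ∧ mat a 0 2 = 0)
  let R2 := univ.filter (fun a : SU K => Up0 a ∧ mat a 1 2 = 0 ∧ mat a 0 2 = mat a 0 0)
  let R3 := univ.filter (fun a : SU K => Up0 a ∧ mat a 0 0 ^ 3 = 1 ∧
    mat a 1 2 * bar (mat a 1 2) = 1 ∧ mat a 0 2 = om K * mat a 0 0)
  have h0 : univ.filter (fun a : SU K => Rep a) ⊆ R1 ∪ R2 ∪ R3 := by
    intro a ha
    simp only [R1, R2, R3, mem_filter, mem_univ, true_and, mem_union, Rep] at ha ⊢
    tauto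
  have h1 : R1.card ≤ (UU K).card := by
    apply Finset.card_le_card_of_injOn (fun a => mat a 0 0)
    · intro a ha
      exact mem_UU.2 (mem_filter.1 ha).2.1.2
    · intro a ha b hb h
      obtain ⟨a1, a2, a3⟩ := (mem_filter.1 ha).2
      obtain ⟨b1, b2, b3⟩ := (mem_filter.1 hb).2
      exact a1.ext b1 h (by rw [a2, b2]) (by rw [a3, b3])
  have h2 : R2.card ≤ (UU K).card := by
    apply Finset.card_le_card_of_injOn (fun a => mat a 0 0)
    · intro a ha
      exact mem_UU.2 (mem_filter.1 ha).2.1.2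
    · intro a ha b hb h
      obtain ⟨a1, a2, a3⟩ := (mem_filter.1 ha).2
      obtain ⟨b1, b2, b3⟩ := (mem_filter.1 hb).2
      exact a1.ext b1 h (by rw [a2, b2]) (by rw [a3, b3]; exact h)
  have h3 : R3.card ≤ (ZZ K ×ˢ UU K).card := by
    apply Finset.card_le_card_of_injOn (fun a => (mat a 0 0, mat a 1 2))
    · intro a ha
      obtain ⟨-, a2, a3, -⟩ := (mem_filter.1 ha).2
      exact mem_product.2 ⟨mem_ZZ.2 a2, mem_UU.2 a3⟩
    · intro a ha b hb h
      obtain ⟨a1, -, -, a3⟩ := (mem_filter.1 ha).2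
      obtain ⟨b1, -, -, b3⟩ := (mem_filter.1 hb).2
      simp only [Prod.mk.injEq] at h
      exact a1.ext b1 h.1 h.2 (by rw [a3, b3, h.1])
  rw [card_product, card_ZZ] at h3
  have h4 := card_UU K
  have h5 := Finset.card_le_card h0
  have h6 := Finset.card_union_le (R1 ∪ R2) R3
  have h7 := Finset.card_union_le R1 R2
  omega

open Classical in
theorem sum_cent_E : ∑ a ∈ univ.filter (fun a : SU K => tr a * bar (tr a) = 1), cent a ≤
    5 * (qq K + 1) * Fintype.card (SU K) := by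
  refine le_trans (sum_cent_le _ (univ.filter (fun a : SU K => Rep a)) ?_)
    (Nat.mul_le_mul_right _ card_Rep)
  intro a ha
  obtain ⟨r, hr, hr'⟩ := rep_of_tr a (mem_filter.1 ha).2
  obtain ⟨g, hg⟩ := isConj_iff.1 hr'
  exact ⟨r, by simpa using hr, g, hg.symm⟩

end Pool.Agent.MP_18be4d_al
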