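import Pool.Agent.MP_18be4d_al.Unitary

/-! Centralisers of regular semisimple elements. -/

open Finset Matrix

set_option linter.unusedSectionVars false

namespace Pool.Agent.MP_18be4d_al

theorem third_index (i j : Fin 3) (h : i ≠ j) : ∃ k : Fin 3, (∀ l, l = i ∨ l = j ∨ l = k) ∧
    ∀ {L : Type} [CommRing L] (μ : Fin 3 → L), μ 0 * μ 1 * μ 2 = μ i * μ j * μ k := by
  fin_cases i <;> fin_cases j <;> first | exact absurd rfl h | skip
  · exact ⟨2, by decide, fun μ => by simp⟩
  · exact ⟨1, by decide, fun μ => by simp; ring⟩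
  · exact ⟨2, by decide, fun μ => by simp; ring⟩
  · exact ⟨0, by decide, fun μ => by simp; ring⟩
  · exact ⟨1, by decide, fun μ => by simp; ring⟩
  · exact ⟨0, by decide, fun μ => by simp; ring⟩

theorem card_torus_le {L : Type} [Field L] (q : ℕ) (hq : 2 ≤ q) (σ : Equiv.Perm (Fin 3))
    (s : Finset (Fin 3 → L)) (h1 : ∀ μ ∈ s, ∀ j, μ (σ j) * μ j ^ q = 1)
    (h2 : ∀ μ ∈ s, μ 0 * μ 1 * μ 2 = 1) : s.card ≤ (q + 1) ^ 2 := by
  classical
  by_cases hσ : ∀ j, σ j = j
  · have hr : ∀ j, (s.image (fun μ => μ j)).card ≤ q + 1 := by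
      intro j
      apply card_pow_eq_one_le _ (by omega)
      intro x hx
      obtain ⟨μ, hμ, rfl⟩ := mem_image.1 hx
      have := h1 μ hμ j
      rw [hσ] at this
      rw [pow_succ', this]
    calc s.card ≤ ((s.image (fun μ => μ 0)) ×ˢ (s.image (fun μ => μ 1))).card := by
          apply Finset.card_le_card_of_injOn (fun μ => (μ 0, μ 1))
          · intro μ hμ
            simp only [coe_product, coe_image, Set.mem_prod, Set.mem_image]
            exact ⟨⟨μ, hμ, rfl⟩, ⟨μ, hμ, rfl⟩⟩
          · intro μ hμ ν hν he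
            simp only [Prod.mk.injEq] at he
            have a1 := h2 μ hμ
            have a2 := h2 ν hν
            have a3 : μ 2 = ν 2 := by
              rw [← he.1, ← he.2] at a2
              calc μ 2 = μ 2 * (μ 0 * μ 1 * ν 2) := by rw [a2, mul_one]
                _ = (μ 0 * μ 1 * μ 2) * ν 2 := by ring
                _ = ν 2 := by rw [a1, one_mul]
            ext l
            fin_cases l
            · exact he.1
            · exact he.2
            · exact a3
      _ ≤ (q + 1) ^ 2 := by
          rw [card_product, sq]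
          exact Nat.mul_le_mul (hr 0) (hr 1)
  · push Not at hσ
    obtain ⟨j, hj⟩ := hσ
    obtain ⟨k, hk1, hk2⟩ := third_index (σ j) j hj
    have hq2 : q ≤ q * q := Nat.le_mul_self q
    obtain ⟨n, hn0, hn1, hn⟩ : ∃ n, 0 < n ∧ n ≤ (q + 1) ^ 2 ∧ ∀ μ ∈ s, μ j ^ n = 1 := by
      rcases hk1 (σ (σ j)) with h | h | h
      · exact absurd (σ.injective h) hj
      · refine ⟨q * q - 1, by omega, by nlinarith [Nat.sub_le (q * q) 1], fun μ hμ => ?_⟩
        have a1 := h1 μ hμ j
        have a2 := h1 μ hμ (σ j)
        rw [h] at a2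
        have x0 : μ j ≠ 0 := left_ne_zero_of_mul_eq_one a2
        apply mul_left_cancel₀ x0
        rw [← pow_succ', Nat.sub_add_cancel (by omega), mul_one]
        calc μ j ^ (q * q) = (μ j * μ (σ j) ^ q) * μ j ^ (q * q) := by rw [a2, one_mul]
          _ = μ j * (μ (σ j) * μ j ^ q) ^ q := by rw [pow_mul, mul_pow]; ring
          _ = μ j := by rw [a1, one_pow, mul_one]
      · refine ⟨q * q + 1 - q, by omega, by nlinarith [Nat.sub_le (q * q + 1) q], fun μ hμ => ?_⟩
        have a1 := h1 μ hμ j
        have a2 := h1 μ hμ (σ j)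
        have a3 := h2 μ hμ
        rw [hk2] at a3
        rw [h] at a2
        have x0 : μ j ^ q ≠ 0 := right_ne_zero_of_mul_eq_one a1
        apply mul_left_cancel₀ x0
        rw [← pow_add, Nat.add_sub_cancel' (by omega), mul_one]
        have a4 : μ (σ j) ^ q = μ (σ j) * μ j := by
          calc μ (σ j) ^ q = (μ (σ j) * μ j * μ k) * μ (σ j) ^ q := by rw [a3, one_mul]
            _ = μ (σ j) * μ j * (μ k * μ (σ j) ^ q) := by ring
            _ = _ := by rw [a2, mul_one]
        have a5 : μ (σ j) * μ j ^ (q * q + 1) = 1 := by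
          calc μ (σ j) * μ j ^ (q * q + 1) = (μ (σ j) * μ j) * μ j ^ (q * q) := by ring
            _ = (μ (σ j) * μ j ^ q) ^ q := by rw [← a4, pow_mul, mul_pow]
            _ = 1 := by rw [a1, one_pow]
        calc μ j ^ (q * q + 1) = (μ (σ j) * μ j ^ q) * μ j ^ (q * q + 1) := by rw [a1, one_mul]
          _ = (μ (σ j) * μ j ^ (q * q + 1)) * μ j ^ q := by ring
          _ = _ := by rw [a5, one_mul]
    calc s.card ≤ (s.image (fun μ => μ j)).card := by
          rw [Finset.card_image_of_injOn]
          intro μ hμ ν hν he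
          simp only at he
          have a1 := h1 μ hμ j
          have a2 := h1 ν hν j
          have a3 := h2 μ hμ
          have a4 := h2 ν hν
          rw [hk2] at a3 a4
          have b1 : μ (σ j) = ν (σ j) := by
            rw [← he] at a2
            exact mul_right_cancel₀ (right_ne_zero_of_mul_eq_one a1) (a1.trans a2.symm)
          have b2 : μ k = ν k := by
            rw [← he, ← b1] at a4
            exact mul_left_cancel₀ (left_ne_zero_of_mul_eq_one a3) (a3.trans a4.symm)
          ext l
          rcases hk1 l with rfl | rfl | rfl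
          · exact b1
          · exact he
          · exact b2
      _ ≤ n := by
          apply card_pow_eq_one_le _ hn0
          intro x hx
          obtain ⟨μ, hμ, rfl⟩ := mem_image.1 hx
          exact hn μ hμ
      _ ≤ _ := hn1

theorem exists_three_roots {L : Type} [Field L] [IsAlgClosed L] (a b c : L) :
    ∃ x y z : L, x + y + z = a ∧ x * y + x * z + y * z = b ∧ x * y * z = c := by
  let P : Cubic L := ⟨1, -a, b, -c⟩
  have ha : P.a ≠ 0 := one_ne_zero
  have hs : (P.toPoly.map (RingHom.id L)).Splits := IsAlgClosed.splits _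
  obtain ⟨x, y, z, h⟩ := (Cubic.splits_iff_roots_eq_three ha).1 hs
  have h1 := Cubic.b_eq_three_roots ha h
  have h2 := Cubic.c_eq_three_roots ha h
  have h3 := Cubic.d_eq_three_roots ha h
  simp only [P, RingHom.id_apply, one_mul, neg_inj] at h1 h2 h3
  exact ⟨x, y, z, h1.symm, h2.symm, h3.symm⟩

theorem exists_diag {L : Type} [Field L] [IsAlgClosed L] [CharP L 2]
    (M : Matrix (Fin 3) (Fin 3) L) (h : M.trace * (adjugate M).trace ≠ M.det) :
    ∃ (P : Matrix (Fin 3) (Fin 3) L) (l : Fin 3 → L), Function.Injective l ∧ IsUnit P ∧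
      M * P = P * diagonal l := by
  obtain ⟨x, y, z, h1, h2, h3⟩ := exists_three_roots M.trace (adjugate M).trace M.det
  have two : (2 : L) = 0 := CharTwo.two_eq_zero
  have hd : (x - y) * (x - z) * (y - z) ≠ 0 := by
    intro h0
    apply h
    rw [← h1, ← h2, ← h3]
    linear_combination h0 + (x * y ^ 2 + x * y * z + x ^ 2 * z + y * z ^ 2) * two
  have hxy : x ≠ y := fun e => hd (by rw [e]; ring)
  have hxz : x ≠ z := fun e => hd (by rw [e]; ring)
  have hyz : y ≠ z := fun e => hd (by rw [e]; ring)
  let l : Fin 3 → L := ![x, y, z]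
  have hl : Function.Injective l := by
    intro i j hij
    fin_cases i <;> fin_cases j <;> simp_all [l] 
  have hdet : ∀ i, (l i • (1 : Matrix (Fin 3) (Fin 3) L) - M).det = 0 := by
    intro i
    rw [det_sub_three, ← h1, ← h2, ← h3]
    fin_cases i <;> simp [l] <;> ring
  have hv : ∀ i, ∃ v : Fin 3 → L, v ≠ 0 ∧ M *ᵥ v = l i • v := by
    intro i
    obtain ⟨v, hv0, hv⟩ := Matrix.exists_mulVec_eq_zero_iff.2 (hdet i)
    refine ⟨v, hv0, ?_⟩
    rw [sub_mulVec, smul_mulVec, one_mulVec, sub_eq_zero] at hv
    exact hv.symm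
  choose v hv0 hv using hv
  have hli : LinearIndependent L v := by
    apply Module.End.eigenvectors_linearIndependent' (Matrix.toLin' M) l hl
    intro i
    exact ⟨Module.End.mem_eigenspace_iff.2 (by simpa using hv i), hv0 i⟩
  refine ⟨(Matrix.of v)ᵀ, l, hl, ?_, ?_⟩
  · rw [← Matrix.linearIndependent_cols_iff_isUnit]
    exact hli
  · ext i j
    have := congrFun (hv j) i
    simp only [mulVec, dotProduct, Pi.smul_apply, smul_eq_mul] at this
    rw [mul_diagonal, Matrix.mul_apply]
    simp only [transpose_apply, of_apply]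
    rw [this, mul_comm]

variable {K : Type} [Field K] [Fintype K] [UF K]

theorem cent_le (a : SU K) (ha : tr a * bar (tr a) ≠ 1) : cent a ≤ (qq K + 1) ^ 2 := by
  classical
  let L := AlgebraicClosure K
  let ι : K →+* L := algebraMap K L
  have hι : Function.Injective ι := ι.injective
  have : CharP L 2 := charP_of_injective_ringHom hι 2
  let β : L →+* L := iterateFrobenius L 2 (UF.f K)
  have hβ : ∀ x, β x = x ^ qq K := fun x => iterateFrobenius_def ..
  have hβι : ∀ x, β (ι x) = ι (bar x) := fun x => by rw [hβ, bar_apply, map_pow]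
  let m : SU K → Matrix (Fin 3) (Fin 3) L := fun h => (mat h).map ι
  have m_mul : ∀ g h, m (g * h) = m g * m h := fun g h => by
    simp only [m, mat_mul, Matrix.map_mul]
  have m_det : ∀ h, (m h).det = 1 := fun h => by
    have := ι.map_det (mat h)
    rw [det_mat, map_one] at this
    exact this.symm
  have m_unit : ∀ h, (m h)ᵀ * JJ L * (m h).map β = JJ L := fun h => by
    have h1 := congrArg (fun M => M.map ι) (mat_unit h)
    simp only [Matrix.map_mul] at h1
    have hJ : (JJ K).map ι = JJ L := by
      ext i j; fin_cases i <;> fin_cases j <;> simp [JJ]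
    have h2 : ((mat h).map bar).map ι = (m h).map β := by
      ext i j; simp [m, hβι]
    rw [hJ, h2] at h1
    exact h1
  obtain ⟨P, l, hl, hP, hMP⟩ := exists_diag (m a) (by
    have h1 : (m a).trace = ι (tr a) := by simp [m, tr, trace, map_sum]
    have h2 : (adjugate (m a)).trace = ι (bar (tr a)) := by
      rw [bar_tr]
      have := ι.map_adjugate (mat a)
      simp only [RingHom.mapMatrix_apply] at this
      simp only [m]
      rw [← this]
      simp [trace, map_sum]
    rw [h1, h2, m_det, ← map_mul, ← map_one ι]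
    exact fun h => ha (hι h))
  have hPd : IsUnit P.det := (Matrix.isUnit_iff_isUnit_det P).1 hP
  let μ : SU K → Fin 3 → L := fun h i => (P⁻¹ * m h * P) i i
  have hdiag : ∀ h : SU K, h * a = a * h → m h * P = P * diagonal (μ h) := by
    intro h hh
    have e1 : (P⁻¹ * m h * P) * diagonal l = diagonal l * (P⁻¹ * m h * P) := by
      have e2 : diagonal l * P⁻¹ = P⁻¹ * m a := by
        calc diagonal l * P⁻¹ = P⁻¹ * (P * diagonal l) * P⁻¹ := by
              rw [← Matrix.mul_assoc, nonsing_inv_mul _ hPd, Matrix.one_mul]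
          _ = _ := by rw [← hMP, ← Matrix.mul_assoc, Matrix.mul_nonsing_inv_cancel_right _ _ hPd]
      calc (P⁻¹ * m h * P) * diagonal l = P⁻¹ * m h * (P * diagonal l) := by
            simp only [Matrix.mul_assoc]
        _ = P⁻¹ * m (h * a) * P := by rw [← hMP, m_mul]; simp only [Matrix.mul_assoc]
        _ = P⁻¹ * m a * m h * P := by rw [hh, m_mul]; simp only [Matrix.mul_assoc]
        _ = _ := by rw [← e2]; simp only [Matrix.mul_assoc]
    have e3 : P⁻¹ * m h * P = diagonal (μ h) := by
      ext i j
      by_cases hij : i = j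
      · subst hij; simp [μ]
      · rw [diagonal_apply_ne _ hij]
        have := congrFun (congrFun e1 i) j
        rw [mul_diagonal, diagonal_mul] at this
        have h4 : (P⁻¹ * m h * P) i j * (l j - l i) = 0 := by linear_combination this
        exact (mul_eq_zero.1 h4).resolve_right (sub_ne_zero.2 (fun e => hij (hl e).symm))
    rw [← e3, Matrix.mul_assoc, Matrix.mul_nonsing_inv_cancel_left _ _ hPd]
  let N : Matrix (Fin 3) (Fin 3) L := Pᵀ * JJ L * P.map β
  have hN : N.det ≠ 0 := by
    have h1 : (P.map β).det = β P.det := (β.map_det P).symm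
    have h2 : (JJ L).det ≠ 0 := by simp [JJ, det_fin_three]
    simp only [N, det_mul, det_transpose, h1]
    exact mul_ne_zero (mul_ne_zero hPd.ne_zero h2) ((map_ne_zero β).2 hPd.ne_zero)
  rw [Matrix.det_apply] at hN
  obtain ⟨σ, -, hσ⟩ := Finset.exists_ne_zero_of_sum_ne_zero hN
  have hσ' : ∀ j, N (σ j) j ≠ 0 := by
    intro j h0
    apply hσ
    rw [Finset.prod_eq_zero (f := fun i => N (σ i) i) (mem_univ j) h0, smul_zero]
  have key : ((univ.filter (fun h : SU K => h * a = a * h)).image μ).card ≤ (qq K + 1) ^ 2 := by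
    apply card_torus_le _ (two_le_qq K) σ
    · intro ν hν j
      obtain ⟨h, hh, rfl⟩ := mem_image.1 hν
      have e := hdiag h (mem_filter.1 hh).2
      have e1 : N = diagonal (μ h) * N * diagonal (fun i => β (μ h i)) := by
        calc N = Pᵀ * ((m h)ᵀ * JJ L * (m h).map β) * P.map β := by rw [m_unit]
          _ = (m h * P)ᵀ * JJ L * (m h * P).map β := by
              simp only [transpose_mul, Matrix.map_mul, Matrix.mul_assoc]
          _ = _ := by
              rw [e, transpose_mul, Matrix.map_mul, diagonal_transpose,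
                diagonal_map (map_zero β)]
              simp only [N, Matrix.mul_assoc]
      have e2 := congrFun (congrFun e1 (σ j)) j
      rw [mul_diagonal, diagonal_mul, hβ] at e2
      apply mul_left_cancel₀ (hσ' j)
      linear_combination -e2
    · intro ν hν
      obtain ⟨h, hh, rfl⟩ := mem_image.1 hν
      have e := congrArg det (hdiag h (mem_filter.1 hh).2)
      rw [det_mul, det_mul, m_det, det_diagonal, Fin.prod_univ_three] at e
      apply mul_left_cancel₀ hPd.ne_zero
      linear_combination -e
  rw [Finset.card_image_of_injOn] at key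
  · unfold cent
    convert key
  · intro g hg h hh he
    have e1 := hdiag g (mem_filter.1 hg).2
    have e2 := hdiag h (mem_filter.1 hh).2
    rw [he, ← e2] at e1
    have e3 : m g = m h := hP.mul_left_inj.1 e1
    apply mat_inj
    ext i j
    exact hι (congrFun (congrFun e3 i) j)

end Pool.Agent.MP_18be4d_al
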