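import Mathlib

/-! An upper bound for the class number of a quotient of a semidirect product. -/

open Finset

namespace Pool.Agent.MP_18be4d_al

open Classical in
/-- order of the centraliser -/
noncomputable def cent {S : Type} [Group S] [Fintype S] (a : S) : ℕ :=
  (univ.filter (fun h : S => h * a = a * h)).card

theorem card_eq_sum_inv_fiber {X Y : Type} [Fintype X] [Fintype Y] [DecidableEq Y] (f : X → Y)
    (hf : Function.Surjective f) :
    (Fintype.card Y : ℝ) = ∑ x : X, 1 / ((univ.filter (fun y => f y = f x)).card : ℝ) := by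
  rw [← Finset.sum_fiberwise (s := univ) (g := f)]
  rw [← Finset.card_univ, Finset.card_eq_sum_ones]
  push_cast
  apply Finset.sum_congr rfl
  intro y _
  have : ∀ x ∈ univ.filter (fun x => f x = y),
      1 / ((univ.filter (fun z => f z = f x)).card : ℝ) =
      1 / ((univ.filter (fun z => f z = y)).card : ℝ) := by
    intro x hx
    rw [(Finset.mem_filter.1 hx).2]
  rw [Finset.sum_congr rfl this, Finset.sum_const, nsmul_eq_mul]
  obtain ⟨x, hx⟩ := hf y
  have : (0 : ℝ) < ((univ.filter (fun z => f z = y)).card : ℝ) := by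
    exact_mod_cast Finset.card_pos.2 ⟨x, by simp [hx]⟩
  field_simp

open Classical in
theorem card_twisted_le {S : Type} [Group S] [Fintype S] (g k : S) :
    (univ.filter (fun h : S => g * h = h * k)).card ≤ cent g := by
  rcases (univ.filter (fun h : S => g * h = h * k)).eq_empty_or_nonempty with h0 | ⟨h0, hh0⟩
  · simp [h0]
  · have e0 : g * h0 = h0 * k := by simpa using hh0
    apply Finset.card_le_card_of_injOn (fun h => h * h0⁻¹)
    · intro h hh
      have e : g * h = h * k := by simpa using hh
      simp only [coe_filter, mem_univ, true_and, Set.mem_ofPred_eq]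
      have : k = h0⁻¹ * g * h0 := by rw [mul_assoc, e0]; group
      rw [← mul_assoc, e, this]; group
    · intro a _ b _ hab
      simpa using hab

open Classical in
theorem card_le_mul_fiber {X Y : Type} [Fintype X] (Φ : X → Y) (T : Finset Y) (m : ℕ)
    (hT : ∀ x, Φ x ∈ T) (hm : ∀ x₀, (univ.filter (fun x => Φ x = Φ x₀)).card ≤ m) :
    Fintype.card X ≤ m * T.card := by
  rw [← Finset.card_univ]
  apply le_trans (Finset.card_le_mul_card_image (f := Φ) univ m _)
  · apply Nat.mul_le_mul_left
    apply Finset.card_le_card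
    intro y hy
    obtain ⟨x, -, rfl⟩ := Finset.mem_image.1 hy
    exact hT x
  · intro b hb
    obtain ⟨x, -, rfl⟩ := Finset.mem_image.1 hb
    exact hm x

open SemidirectProduct Classical in
theorem class_number_le {S A G : Type} [Group S] [Group A] [Group G] [Fintype S] [Fintype A]
    [Finite G] (φ : A →* MulAut S) (π : S ⋊[φ] A →* G) (hπ : Function.Surjective π)
    (Z : Finset S) (hZ : ∀ z ∈ Z, π (inl z) = 1) (hZ0 : Z.Nonempty) (good : S → Prop) (m : ℕ)
    (H1 : ∀ a, good a → ∀ (g g' : S) (σ σ' : A), ∀ z ∈ Z, ∀ z' ∈ Z,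
      z * (g * φ σ a * g⁻¹) = z' * (g' * φ σ' a * g'⁻¹) → σ = σ' ∧ z = z')
    (H2 : ∀ a, good a → ∀ σ : A, cent (φ σ a) ≤ m)
    (H3 : ∀ a, good a → ∀ σ : A, σ ≠ 1 → ∀ h : S, a * h ≠ h * φ σ a) :
    (Nat.card (ConjClasses G) : ℝ) ≤ (m : ℝ) / (Z.card * Fintype.card A) +
      (Fintype.card A + 1) * (∑ a ∈ univ.filter (fun a => ¬ good a), (cent a : ℝ)) /
        Fintype.card S := by
  have : Fintype (S ⋊[φ] A) := Fintype.ofEquiv _ (SemidirectProduct.equivProd).symm
  have : Fintype G := Fintype.ofFinite G
  have : Fintype (ConjClasses G) := Fintype.ofFinite _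
  let f : S ⋊[φ] A → ConjClasses G := fun x => ConjClasses.mk (π x)
  have hf : Function.Surjective f := ConjClasses.mk_surjective.comp hπ
  let fib : S ⋊[φ] A → ℕ := fun x => (univ.filter (fun y => f y = f x)).card
  have hfib : ∀ x, (0 : ℝ) < fib x := by
    intro x
    exact_mod_cast Finset.card_pos.2 ⟨x, by simp⟩
  have hconj : ∀ x y : S ⋊[φ] A, f (y * x * y⁻¹) = f x := by
    intro x y
    simp only [f, map_mul, map_inv]
    rw [ConjClasses.mk_eq_mk_iff_isConj]
    exact (isConj_iff.2 ⟨π y, rfl⟩).symm
  have hS : (0 : ℝ) < Fintype.card S := by exact_mod_cast Fintype.card_pos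
  have hA : (0 : ℝ) < Fintype.card A := by exact_mod_cast Fintype.card_pos
  have hZc : (0 : ℝ) < Z.card := by exact_mod_cast Finset.card_pos.2 hZ0
  let c : S ⋊[φ] A → ℕ := fun x =>
    (univ.filter (fun g : S => g * x.left = x.left * φ x.right g)).card
  -- good elements
  have B1 : ∀ a, good a → 1 / (fib (inl a) : ℝ) ≤
      m / (Z.card * Fintype.card A) / Fintype.card S := by
    intro a ha
    have := card_le_mul_fiber (X := S × A × Z)
      (fun u => (inl (u.2.2.1 * (u.1 * φ u.2.1 a * u.1⁻¹)) : S ⋊[φ] A))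
      (univ.filter (fun y => f y = f (inl a))) m ?_ ?_
    · simp only [Fintype.card_prod, Fintype.card_coe] at this
      have h2 : (Fintype.card S : ℝ) * (Fintype.card A * Z.card) ≤ m * fib (inl a) := by
        exact_mod_cast this
      rw [div_div, div_le_div_iff₀ (hfib _) (by positivity)]
      linarith
    · rintro ⟨g, σ, z, hz⟩
      simp only [mem_filter, mem_univ, true_and]
      rw [← hconj (inl a) (inl g * inr σ)]
      have : (inl g * inr σ) * inl a * (inl g * inr σ)⁻¹ =
          (inl (g * φ σ a * g⁻¹) : S ⋊[φ] A) := by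
        rw [map_mul, map_mul, inl_aut, map_inv, map_inv]; group
      rw [this]
      simp only [f]
      rw [map_mul (inl : S →* S ⋊[φ] A), map_mul π, hZ z hz, one_mul]
    · rintro ⟨g', σ', z', hz'⟩
      refine le_trans ?_ (H2 a ha σ')
      apply Finset.card_le_card_of_injOn (fun u => g'⁻¹ * u.1)
      · rintro ⟨g, σ, z, hz⟩ hu
        simp only [coe_filter, mem_univ, true_and, Set.mem_ofPred_eq] at hu ⊢
        have hu' := inl_injective hu
        obtain ⟨rfl, rfl⟩ := H1 a ha g g' σ σ' z hz z' hz' hu'
        have h3 := mul_left_cancel hu'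
        calc g'⁻¹ * g * φ σ a = g'⁻¹ * (g * φ σ a * g⁻¹) * g := by group
          _ = _ := by rw [h3]; group
      · rintro ⟨g, σ, z, hz⟩ hu ⟨g₂, σ₂, z₂, hz₂⟩ hu₂ he
        simp only [coe_filter, mem_univ, true_and, Set.mem_ofPred_eq] at hu hu₂ he
        obtain ⟨rfl, rfl⟩ := H1 a ha g g' σ σ' z hz z' hz' (inl_injective hu)
        obtain ⟨rfl, rfl⟩ := H1 a ha g₂ g' σ₂ σ z₂ hz₂ z hz (inl_injective hu₂)
        rw [mul_left_cancel he]
  -- arbitrary elements
  have B2 : ∀ x, 1 / (fib x : ℝ) ≤ c x / Fintype.card S := by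
    intro x
    have := card_le_mul_fiber (X := S) (fun g => (inl g * x * (inl g)⁻¹ : S ⋊[φ] A))
      (univ.filter (fun y => f y = f x)) (c x) ?_ ?_
    · have h2 : (Fintype.card S : ℝ) ≤ c x * fib x := by exact_mod_cast this
      rw [div_le_div_iff₀ (hfib _) hS]
      linarith
    · intro g
      simp only [mem_filter, mem_univ, true_and]
      exact hconj _ _
    · intro g'
      apply Finset.card_le_card_of_injOn (fun g => g'⁻¹ * g)
      · intro g hg
        simp only [coe_filter, mem_univ, true_and, Set.mem_ofPred_eq] at hg ⊢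
        have h3 : (inl (g'⁻¹ * g) * x : S ⋊[φ] A) = x * inl (g'⁻¹ * g) := by
          rw [map_mul, map_inv]
          calc (inl g')⁻¹ * inl g * x = (inl g')⁻¹ * (inl g * x * (inl g)⁻¹) * inl g := by group
            _ = _ := by rw [hg]; group
        have := congrArg SemidirectProduct.left h3
        simpa using this
      · intro a _ b _ hab
        simpa using hab
  rw [Nat.card_eq_fintype_card, card_eq_sum_inv_fiber f hf]
  change ∑ x, 1 / (fib x : ℝ) ≤ _
  rw [← (SemidirectProduct.equivProd (φ := φ)).symm.sum_comp, Fintype.sum_prod_type_right]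
  rw [← Finset.add_sum_erase univ _ (mem_univ (1 : A))]
  rw [← Finset.sum_filter_add_sum_filter_not univ good]
  have P1 : ∑ a ∈ univ.filter good, 1 / (fib (SemidirectProduct.equivProd.symm (a, 1)) : ℝ) ≤
      m / (Z.card * Fintype.card A) := by
    apply le_trans (Finset.sum_le_card_nsmul _ _
      ((m : ℝ) / (Z.card * Fintype.card A) / Fintype.card S) _)
    · rw [nsmul_eq_mul]
      have : ((univ.filter good).card : ℝ) ≤ Fintype.card S := by
        exact_mod_cast Finset.card_filter_le _ _
      calc _ ≤ (Fintype.card S : ℝ) * ((m : ℝ) / (Z.card * Fintype.card A) / Fintype.card S) := by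
            gcongr
        _ = _ := by field_simp
    · intro a ha
      exact B1 a (mem_filter.1 ha).2
  have P2 : ∑ a ∈ univ.filter (fun a => ¬ good a),
      1 / (fib (SemidirectProduct.equivProd.symm (a, 1)) : ℝ) ≤
      (∑ a ∈ univ.filter (fun a => ¬ good a), (cent a : ℝ)) / Fintype.card S := by
    rw [Finset.sum_div]
    apply Finset.sum_le_sum
    intro a _
    apply le_trans (B2 _)
    simp [c, cent, SemidirectProduct.equivProd]
  have P3 : ∀ σ ∈ univ.erase (1 : A),
      ∑ a : S, 1 / (fib (SemidirectProduct.equivProd.symm (a, σ)) : ℝ) ≤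
      (∑ a ∈ univ.filter (fun a => ¬ good a), (cent a : ℝ)) / Fintype.card S := by
    intro σ hσ
    apply le_trans (Finset.sum_le_sum (fun a _ => B2 _))
    rw [← Finset.sum_div]
    gcongr
    have e1 : ∑ a : S, c (SemidirectProduct.equivProd.symm (a, σ)) =
        ∑ g : S, (univ.filter (fun h : S => g * h = h * φ σ g)).card := by
      simp only [c, SemidirectProduct.equivProd, Equiv.coe_fn_symm_mk, Finset.card_filter]
      exact Finset.sum_comm
    have e2 : ∑ g : S, (univ.filter (fun h : S => g * h = h * φ σ g)).card ≤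
        ∑ a ∈ univ.filter (fun a => ¬ good a), cent a := by
      rw [Finset.sum_filter]
      apply Finset.sum_le_sum
      intro g _
      split_ifs with hg
      · simp only [nonpos_iff_eq_zero, card_eq_zero, filter_eq_empty_iff]
        intro h _
        exact H3 g hg σ (ne_of_mem_erase hσ) h
      · exact card_twisted_le _ _
    exact_mod_cast e1.le.trans e2
  have P4 := Finset.sum_le_card_nsmul _ _ _ P3
  rw [nsmul_eq_mul] at P4
  have P5 : ((univ.erase (1 : A)).card : ℝ) ≤ Fintype.card A := by
    exact_mod_cast Finset.card_le_univ _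
  have P6 : 0 ≤ (∑ a ∈ univ.filter (fun a => ¬ good a), (cent a : ℝ)) / Fintype.card S := by
    positivity
  have P7 := mul_le_mul_of_nonneg_right P5 P6
  rw [mul_div_assoc]
  linarith

open Classical in
/-- elements conjugate into a set of representatives -/
theorem sum_cent_le {S : Type} [Group S] [Fintype S] (E R : Finset S)
    (h : ∀ a ∈ E, ∃ r ∈ R, ∃ g : S, a = g * r * g⁻¹) :
    ∑ a ∈ E, cent a ≤ R.card * Fintype.card S := by
  have key : ∀ r : S, ∑ a ∈ univ.filter (fun a => ∃ g : S, a = g * r * g⁻¹), cent a ≤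
      Fintype.card S := by
    intro r
    rw [← Finset.card_univ, Finset.card_eq_sum_card_fiberwise
      (f := fun g : S => g * r * g⁻¹) (t := univ.filter (fun a => ∃ g : S, a = g * r * g⁻¹))]
    · apply Finset.sum_le_sum
      intro a ha
      obtain ⟨g, rfl⟩ := (mem_filter.1 ha).2
      apply Finset.card_le_card_of_injOn (fun h => h * g)
      · intro h hh
        simp only [coe_filter, mem_univ, true_and, Set.mem_ofPred_eq] at hh ⊢
        calc h * g * r * (h * g)⁻¹ = h * (g * r * g⁻¹) * h⁻¹ := by group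
          _ = _ := by rw [hh]; group
      · intro a _ b _ hab
        simpa using hab
    · intro g _
      simp only [coe_filter, mem_univ, true_and, Set.mem_ofPred_eq]
      exact ⟨g, rfl⟩
  calc ∑ a ∈ E, cent a ≤ ∑ a ∈ E, ∑ r ∈ R, if (∃ g : S, a = g * r * g⁻¹) then cent a else 0 := by
        apply Finset.sum_le_sum
        intro a ha
        obtain ⟨r, hr, g, hg⟩ := h a ha
        refine le_trans ?_ (Finset.single_le_sum (fun _ _ => Nat.zero_le _) hr)
        rw [if_pos ⟨g, hg⟩]
    _ ≤ ∑ a, ∑ r ∈ R, if (∃ g : S, a = g * r * g⁻¹) then cent a else 0 :=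
        Finset.sum_le_sum_of_subset (subset_univ _)
    _ = ∑ r ∈ R, ∑ a ∈ univ.filter (fun a => ∃ g : S, a = g * r * g⁻¹), cent a := by
        rw [Finset.sum_comm]
        simp only [Finset.sum_filter]
    _ ≤ ∑ r ∈ R, Fintype.card S := Finset.sum_le_sum (fun r _ => key r)
    _ = _ := by simp

end Pool.Agent.MP_18be4d_al
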