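import Pool.Agent.MP_18be4d_al.Bad

/-! Elements with a central eigenvalue. -/

open Finset Matrix

set_option linter.unusedSectionVars false

namespace Pool.Agent.MP_18be4d_al

variable {K : Type} [Field K] [Fintype K] [UF K]

open Classical in
/-- order of the stabiliser of a vector -/
noncomputable def stab (v : Fin 3 → K) : ℕ := (univ.filter (fun g : SU K => mat g *ᵥ v = v)).card

theorem uu_tt_mulVec (b c : K) (h : (b, c) ∈ PP K) (l : K) (hl : l ≠ 0) (v : Fin 3 → K) :
    mat (uu b c h * tt l hl) *ᵥ v =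
      ![l * v 0 - bar b * (bar l * l⁻¹ * v 1) + c * ((bar l)⁻¹ * v 2),
        bar l * l⁻¹ * v 1 + b * ((bar l)⁻¹ * v 2), (bar l)⁻¹ * v 2] := by
  rw [mat_mul, ← mulVec_mulVec]
  ext i
  fin_cases i <;> simp [mat_uu, mat_tt, mulVec, dotProduct, Fin.sum_univ_three]
  ring

theorem stab_le_aux (v : Fin 3 → K) (hv : v 2 ≠ 0) :
    stab v * ((qq K ^ 2 - 1) * qq K ^ 3) ≤ Fintype.card (SU K) := by
  classical
  let Φ : (univ.filter (fun g : SU K => mat g *ᵥ v = v)) × ((univ : Finset K).erase 0) × PP K →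
      SU K := fun x => uu x.2.2.1.1 x.2.2.1.2 x.2.2.2 * tt x.2.1.1 (ne_of_mem_erase x.2.1.2) * x.1.1
  have hΦ : Function.Injective Φ := by
    rintro ⟨⟨g, hg⟩, ⟨l, hl⟩, ⟨⟨b, c⟩, hbc⟩⟩ ⟨⟨g', hg'⟩, ⟨l', hl'⟩, ⟨⟨b', c'⟩, hbc'⟩⟩ he
    simp only [Φ] at he
    have h1 := congrArg (fun x => mat x *ᵥ v) he
    simp only [mem_filter, mem_univ, true_and] at hg hg'
    rw [mat_mul, ← mulVec_mulVec, hg, mat_mul _ g', ← mulVec_mulVec, hg', uu_tt_mulVec,
      uu_tt_mulVec] at h1
    have h2 := congrFun h1 2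
    have h3 := congrFun h1 1
    have h4 := congrFun h1 0
    simp only [cons_val_two, cons_val_one, cons_val_zero, Nat.succ_eq_add_one, Nat.reduceAdd,
      tail_cons, head_cons] at h2 h3 h4
    have e1 : l = l' := bar.injective (inv_injective (mul_right_cancel₀ hv h2))
    subst e1
    have hl0 : (bar l)⁻¹ * v 2 ≠ 0 :=
      mul_ne_zero (inv_ne_zero (fun h => ne_of_mem_erase hl (bar_eq_zero.1 h))) hv
    have e2 : b = b' := mul_right_cancel₀ hl0 (add_left_cancel h3)
    subst e2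
    have e3 : c = c' := mul_right_cancel₀ hl0 (add_left_cancel h4)
    subst e3
    have e4 : g = g' := mul_left_cancel he
    subst e4
    rfl
  have := Fintype.card_le_of_injective Φ hΦ
  simp only [Fintype.card_prod, Fintype.card_coe, card_erase_of_mem (mem_univ _), card_univ,
    card_K, card_PP] at this
  unfold stab
  convert this

theorem stab_le_conj (g : SU K) (v : Fin 3 → K) : stab v ≤ stab (mat g *ᵥ v) := by
  classical
  unfold stab
  apply Finset.card_le_card_of_injOn (fun h => g * h * g⁻¹)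
  · intro h hh
    simp only [coe_filter, mem_univ, true_and, Set.mem_ofPred_eq] at hh ⊢
    rw [mulVec_mulVec, ← mat_mul, inv_mul_cancel_right, mat_mul, ← mulVec_mulVec, hh]
  · intro a _ b _ hab
    simpa using hab

theorem stab_le (v : Fin 3 → K) (hv : v ≠ 0) :
    stab v * ((qq K ^ 2 - 1) * qq K ^ 3) ≤ Fintype.card (SU K) := by
  obtain ⟨g, hg⟩ : ∃ g : SU K, (mat g *ᵥ v) 2 ≠ 0 := by
    by_cases h2 : v 2 = 0
    · by_cases h0 : v 0 = 0
      · refine ⟨ww K * uu 1 _ (om_mem_PP 1), ?_⟩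
        rw [mat_mul, ← mulVec_mulVec]
        simp [mat_ww, mat_uu, mulVec, dotProduct, Fin.sum_univ_three, h2, h0]
        intro h1
        apply hv
        ext i; fin_cases i <;> simp [h0, h1, h2]
      · exact ⟨ww K, by simpa [mat_ww, mulVec, dotProduct, Fin.sum_univ_three] using h0⟩
    · exact ⟨1, by rwa [mat_one, one_mulVec]⟩
  exact le_trans (Nat.mul_le_mul_right _ (stab_le_conj g v)) (stab_le_aux _ hg)

/-- having an eigenvalue that is a cube root of unity -/
def Eig (a : SU K) : Prop := ∃ z : K, z ^ 3 = 1 ∧ ∃ v : Fin 3 → K, v ≠ 0 ∧ mat a *ᵥ v = z • v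

theorem eig_of_tr (a : SU K) (h : bar (tr a ^ 3) = tr a ^ 3) : Eig a := by
  obtain ⟨z, hz, hz'⟩ : ∃ z : K, z ^ 3 = 1 ∧ bar (tr a) = tr a * z := by
    by_cases h0 : tr a = 0
    · exact ⟨1, by simp, by simp [h0]⟩
    · refine ⟨bar (tr a) / tr a, ?_, by field_simp⟩
      rw [div_pow, ← map_pow, h, div_self (pow_ne_zero _ h0)]
  have hd : (z • (1 : Matrix (Fin 3) (Fin 3) K) - mat a).det = 0 := by
    rw [det_sub_three, ← bar_tr, det_mat, ← tr, hz', hz]; ring
  obtain ⟨v, hv0, hv⟩ := Matrix.exists_mulVec_eq_zero_iff.2 hd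
  rw [sub_mulVec, smul_mulVec, one_mulVec, sub_eq_zero] at hv
  exact ⟨z, hz, v, hv0, hv.symm⟩

open Classical in
theorem card_Eig : (univ.filter (fun a : SU K => Eig a)).card * (qq K ^ 2 - 1) *
    ((qq K ^ 2 - 1) * qq K ^ 3) ≤ 3 * qq K ^ 6 * Fintype.card (SU K) := by
  let V0 : Finset (Fin 3 → K) := univ.erase 0
  have h1 : (univ.filter (fun a : SU K => Eig a)).card * (qq K ^ 2 - 1) ≤
      ∑ a : SU K, ∑ z ∈ ZZ K, ∑ v ∈ V0, if mat a *ᵥ v = z • v then 1 else 0 := by
    rw [← smul_eq_mul, ← Finset.sum_const]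
    refine le_trans (Finset.sum_le_sum ?_) (Finset.sum_le_sum_of_subset (subset_univ _))
    intro a ha
    obtain ⟨z, hz, v, hv0, hv⟩ := (mem_filter.1 ha).2
    refine le_trans ?_ (Finset.single_le_sum (fun _ _ => Nat.zero_le _) (mem_ZZ.2 hz))
    rw [← Finset.card_filter, ← card_K, ← card_univ, ← card_erase_of_mem (mem_univ (0 : K))]
    apply Finset.card_le_card_of_injOn (fun c => c • v)
    · intro c hc
      simp only [coe_filter, Set.mem_ofPred_eq, V0, mem_erase, mem_univ, and_true]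
      exact ⟨smul_ne_zero (ne_of_mem_erase hc) hv0, by rw [mulVec_smul, hv, smul_comm]⟩
    · intro c _ d _ h
      exact smul_left_injective K hv0 h
  have h2 : ∀ z ∈ ZZ K, ∀ v ∈ V0,
      (∑ a : SU K, if mat a *ᵥ v = z • v then 1 else 0) ≤ stab v := by
    intro z hz v _
    rw [← Finset.card_filter]
    unfold stab
    have hz3 := mem_ZZ.1 hz
    have hz' : (z ^ 2) ^ 3 = 1 := by rw [← pow_mul, mul_comm, pow_mul, hz3, one_pow]
    apply Finset.card_le_card_of_injOn (fun a => zz (z ^ 2) hz' * a)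
    · intro a ha
      simp only [coe_filter, mem_univ, true_and, Set.mem_ofPred_eq] at ha ⊢
      rw [mat_mul, ← mulVec_mulVec, ha, mat_zz, smul_mulVec, one_mulVec, smul_smul, ← pow_succ,
        hz3, one_smul]
    · intro a _ b _ hab
      simpa using hab
  rw [Finset.sum_comm] at h1
  have h3 : ∑ z ∈ ZZ K, ∑ a : SU K, ∑ v ∈ V0, (if mat a *ᵥ v = z • v then 1 else 0) ≤
      ∑ z ∈ ZZ K, ∑ v ∈ V0, stab v := by
    apply Finset.sum_le_sum
    intro z hz
    rw [Finset.sum_comm]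
    exact Finset.sum_le_sum (h2 z hz)
  have h4 : (∑ v ∈ V0, stab v) * ((qq K ^ 2 - 1) * qq K ^ 3) ≤ qq K ^ 6 * Fintype.card (SU K) := by
    rw [Finset.sum_mul]
    refine le_trans (Finset.sum_le_card_nsmul _ _ (Fintype.card (SU K))
      (fun v hv => stab_le v (ne_of_mem_erase hv))) ?_
    rw [smul_eq_mul]
    apply Nat.mul_le_mul_right
    refine le_trans (card_le_univ _) ?_
    rw [Fintype.card_fun, Fintype.card_fin, card_K, ← pow_mul]
  rw [Finset.sum_const, card_ZZ, smul_eq_mul] at h3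
  calc _ ≤ (3 * ∑ v ∈ V0, stab v) * ((qq K ^ 2 - 1) * qq K ^ 3) :=
        Nat.mul_le_mul_right _ (h1.trans h3)
    _ ≤ _ := by
        rw [mul_assoc, mul_assoc 3]
        exact Nat.mul_le_mul_left _ h4

/-- good elements -/
def Good (a : SU K) : Prop := tr a * bar (tr a) ≠ 1 ∧ bar (tr a ^ 3) ≠ tr a ^ 3

open Classical in
theorem sum_cent_bad : (∑ a ∈ univ.filter (fun a : SU K => ¬ Good a), (cent a : ℝ)) ≤
    (5 * (qq K + 1) + 3 * (qq K : ℝ) ^ 3 / (qq K - 1) ^ 2) * Fintype.card (SU K) := by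
  have h1 : ∑ a ∈ univ.filter (fun a : SU K => ¬ Good a), cent a ≤
      ∑ a ∈ univ.filter (fun a : SU K => tr a * bar (tr a) = 1), cent a +
      (univ.filter (fun a : SU K => Eig a)).card * (qq K + 1) ^ 2 := by
    rw [← smul_eq_mul, ← Finset.sum_const]
    simp only [Finset.sum_filter, ← Finset.sum_add_distrib]
    apply Finset.sum_le_sum
    intro a _
    by_cases h : tr a * bar (tr a) = 1
    · rw [if_pos h]
      split_ifs <;> omega
    · rw [if_neg h]
      by_cases h' : Good a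
      · simp [h']
      · rw [if_pos h', if_pos (eig_of_tr a (by by_contra hc; exact h' ⟨h, hc⟩)), zero_add]
        exact cent_le a h
  have h2 := sum_cent_E (K := K)
  have h3 := card_Eig (K := K)
  have hq : (2 : ℝ) ≤ qq K := by exact_mod_cast two_le_qq K
  have hq1 : 1 ≤ qq K ^ 2 := Nat.one_le_pow _ _ (by have := two_le_qq K; omega)
  have h3' : ((univ.filter (fun a : SU K => Eig a)).card : ℝ) * ((qq K : ℝ) ^ 2 - 1) *
    (((qq K : ℝ) ^ 2 - 1) * qq K ^ 3) ≤ 3 * qq K ^ 6 * Fintype.card (SU K) := by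
    have := (Nat.cast_le (α := ℝ)).2 h3
    push_cast [Nat.cast_sub hq1] at this
    exact this
  have h4 : ((univ.filter (fun a : SU K => Eig a)).card : ℝ) * (qq K + 1) ^ 2 ≤
      3 * (qq K : ℝ) ^ 3 / (qq K - 1) ^ 2 * Fintype.card (SU K) := by
    have h5 : (0 : ℝ) < (qq K - 1) ^ 2 := by have : (0 : ℝ) < qq K - 1 := by linarith
                                             positivity
    have h6 : (0 : ℝ) < (qq K) ^ 3 := by positivity
    rw [div_mul_eq_mul_div, le_div_iff₀ h5]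
    apply le_of_mul_le_mul_right _ h6
    calc _ = ((univ.filter (fun a : SU K => Eig a)).card : ℝ) * ((qq K : ℝ) ^ 2 - 1) *
      (((qq K : ℝ) ^ 2 - 1) * qq K ^ 3) := by ring
      _ ≤ _ := h3'
      _ = _ := by ring
  have h1' := (Nat.cast_le (α := ℝ)).2 (h1.trans (Nat.add_le_add_right h2 _))
  push_cast at h1'
  rw [add_mul]
  linarith

end Pool.Agent.MP_18be4d_al
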