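import Pool.Agent.MP_18be4d_al.Count

/-! Finite fields of order `q ^ 2` with `q = 2 ^ f`, `f` odd. -/

open Finset

set_option linter.unusedSectionVars false

namespace Pool.Agent.MP_18be4d_al

/-- a finite field of order `(2 ^ f) ^ 2` with `f` odd -/
class UF (K : Type) [Field K] [Fintype K] where
  f : ℕ
  char2 : CharP K 2
  card_eq : Fintype.card K = (2 ^ f) ^ 2
  odd_f : Odd f

attribute [instance] UF.char2

variable {K : Type} [Field K] [Fintype K] [UF K]

variable (K) in
/-- `q` -/
def qq : ℕ := 2 ^ UF.f K

/-- the involution `x ↦ x ^ q` -/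
def bar : K →+* K := iterateFrobenius K 2 (UF.f K)

theorem bar_apply (x : K) : bar x = x ^ qq K := iterateFrobenius_def ..

variable (K) in
theorem card_K : Fintype.card K = qq K ^ 2 := UF.card_eq

variable (K) in
theorem two_le_qq : 2 ≤ qq K := by
  obtain ⟨k, hk⟩ := UF.odd_f (K := K)
  rw [qq, hk, pow_succ]
  have : 1 ≤ 2 ^ (2 * k) := Nat.one_le_two_pow
  omega

variable (K) in
theorem qq_mod_three : qq K % 3 = 2 := by
  obtain ⟨k, hk⟩ := UF.odd_f (K := K)
  rw [qq, hk, pow_succ, pow_mul, Nat.mul_mod, Nat.pow_mod]
  norm_num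

@[simp] theorem bar_bar (x : K) : bar (bar x) = x := by
  rw [bar_apply, bar_apply, ← pow_mul, ← sq, ← card_K, FiniteField.pow_card]

variable (K) in
theorem two_eq_zero : (2 : K) = 0 := CharTwo.two_eq_zero

theorem bar_eq_zero {x : K} : bar x = 0 ↔ x = 0 := map_eq_zero bar

theorem bar_of_cube {z : K} (h : z ^ 3 = 1) : bar z = z ^ 2 := by
  rw [bar_apply, ← Nat.div_add_mod (qq K) 3, qq_mod_three, pow_add, pow_mul, h, one_pow, one_mul]

theorem mul_bar_of_cube {z : K} (h : z ^ 3 = 1) : z * bar z = 1 := by
  rw [bar_of_cube h, ← h]; ring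

variable (K) in
theorem exists_omega : ∃ w : K, w ^ 2 + w + 1 = 0 := by
  classical
  have h3 : 3 ∣ Fintype.card Kˣ := by
    rw [Fintype.card_units, card_K]
    have h := qq_mod_three K
    have h2 : qq K ^ 2 % 3 = 1 := by rw [Nat.pow_mod, h]
    omega
  have : Fact (Nat.Prime 3) := ⟨Nat.prime_three⟩
  obtain ⟨u, hu⟩ := exists_prime_orderOf_dvd_card 3 h3
  have h1 : (u : K) ^ 3 = 1 := by
    rw [← Units.val_pow_eq_pow_val, ← hu, pow_orderOf_eq_one, Units.val_one]
  have h2 : (u : K) ≠ 1 := by
    intro h
    have : u = 1 := Units.ext h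
    rw [this, orderOf_one] at hu
    omega
  refine ⟨u, ?_⟩
  have : ((u : K) - 1) * ((u : K) ^ 2 + u + 1) = 0 := by linear_combination h1
  exact (mul_eq_zero.1 this).resolve_left (sub_ne_zero.2 h2)

variable (K) in
/-- a primitive cube root of unity -/
noncomputable def om : K := (exists_omega K).choose

theorem om_spec : om K ^ 2 + om K + 1 = 0 := (exists_omega K).choose_spec

theorem om_cube : om K ^ 3 = 1 := by linear_combination (om K - 1) * om_spec (K := K)

theorem om_add_bar : om K + bar (om K) + 1 = 0 := by
  rw [bar_of_cube om_cube]; linear_combination om_spec (K := K)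

theorem om_ne_one : om K ≠ 1 := by
  intro h
  have h1 := om_spec (K := K)
  rw [h] at h1
  have : (1 : K) = 0 := by linear_combination h1 - two_eq_zero K
  exact one_ne_zero this

theorem sq_inj {x y : K} (h : x ^ 2 = y ^ 2) : x = y := by
  have : (x - y) ^ 2 = 0 := by linear_combination h + (y ^ 2 - x * y) * two_eq_zero K
  exact sub_eq_zero.1 (pow_eq_zero_iff (by norm_num) |>.1 this)

theorem exists_sqrt (x : K) : ∃ y : K, y ^ 2 = x := by
  have : Function.Surjective (fun y : K => y ^ 2) :=
    Finite.surjective_of_injective (fun a b h => sq_inj h)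
  exact this x

theorem exists_sqrt_fixed (x : K) (hx : bar x = x) : ∃ y : K, y ^ 2 = x ∧ bar y = y := by
  obtain ⟨y, hy⟩ := exists_sqrt x
  refine ⟨y, hy, sq_inj ?_⟩
  rw [← map_pow, hy, hx]

theorem card_pow_eq_one_le {L : Type} [Field L] (n : ℕ) (hn : 0 < n) (s : Finset L)
    (hs : ∀ x ∈ s, x ^ n = 1) : s.card ≤ n := by
  classical
  calc s.card ≤ (Polynomial.nthRoots n (1 : L)).toFinset.card := by
        apply Finset.card_le_card
        intro x hx
        rw [Multiset.mem_toFinset, Polynomial.mem_nthRoots hn]
        exact hs x hx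
    _ ≤ Multiset.card (Polynomial.nthRoots n (1 : L)) := Multiset.toFinset_card_le _
    _ ≤ n := Polynomial.card_nthRoots n 1

open Classical in
variable (K) in
/-- the fixed field of the involution -/
noncomputable def FF : Finset K := univ.filter (fun x => bar x = x)

theorem mem_FF {x : K} : x ∈ FF K ↔ bar x = x := by simp [FF]

variable (K) in
theorem card_FF : (FF K).card = qq K := by
  classical
  have hq := two_le_qq K
  apply le_antisymm
  · have h1 : ((FF K).erase 0).card ≤ qq K - 1 := by
      apply card_pow_eq_one_le _ (by omega)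
      intro x hx
      have h0 := ne_of_mem_erase hx
      have h1 := mem_FF.1 (mem_of_mem_erase hx)
      rw [bar_apply] at h1
      apply mul_left_cancel₀ h0
      rw [← pow_succ', mul_one, Nat.sub_add_cancel (by omega), h1]
    have h2 : (0 : K) ∈ FF K := mem_FF.2 (map_zero _)
    rw [card_erase_of_mem h2] at h1
    omega
  · have := card_le_mul_fiber (fun x : K => x + bar x) (FF K) (FF K).card ?_ ?_
    · rw [card_K, ← sq] at this
      exact (Nat.pow_le_pow_iff_left (by norm_num)).1 this
    · intro x
      rw [mem_FF, map_add, bar_bar, add_comm]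
    · intro x₀
      apply Finset.card_le_card_of_injOn (fun x => x - x₀)
      · intro x hx
        simp only [coe_filter, mem_univ, true_and, Set.mem_ofPred_eq] at hx
        rw [mem_coe, mem_FF, map_sub]
        linear_combination hx + (x₀ - x) * two_eq_zero K
      · intro a _ b _ hab
        simpa using hab

open Classical in
variable (K) in
/-- elements of norm one -/
noncomputable def UU : Finset K := univ.filter (fun x => x * bar x = 1)

theorem mem_UU {x : K} : x ∈ UU K ↔ x * bar x = 1 := by simp [UU]

variable (K) in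
theorem card_UU : (UU K).card ≤ qq K + 1 := by
  apply card_pow_eq_one_le _ (by omega)
  intro x hx
  rw [pow_succ', ← bar_apply, mem_UU.1 hx]

open Classical in
variable (K) in
/-- cube roots of unity -/
noncomputable def ZZ : Finset K := univ.filter (fun x => x ^ 3 = 1)

theorem mem_ZZ {x : K} : x ∈ ZZ K ↔ x ^ 3 = 1 := by simp [ZZ]

variable (K) in
theorem card_ZZ : (ZZ K).card = 3 := by
  classical
  apply le_antisymm
  · exact card_pow_eq_one_le _ (by omega) _ (fun x hx => mem_ZZ.1 hx)
  · have h0 : om K ≠ 0 := by
      intro h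
      have := om_cube (K := K)
      rw [h] at this
      simp at this
    have h1 : (1 : K) ≠ om K := om_ne_one.symm
    have h2 : (1 : K) ≠ om K ^ 2 := by
      intro h
      exact h1 (sq_inj (by rw [← h]; ring))
    have h3 : om K ≠ om K ^ 2 := by
      intro h
      apply h1
      apply mul_left_cancel₀ h0
      rw [mul_one, ← sq, ← h]
    rw [← Finset.card_eq_three.2 ⟨_, _, _, h1, h2, h3, rfl⟩]
    apply Finset.card_le_card
    intro x hx
    rw [mem_ZZ]
    simp only [mem_insert, mem_singleton] at hx
    rcases hx with rfl | rfl | rfl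
    · simp
    · exact om_cube
    · rw [← pow_mul, mul_comm, pow_mul, om_cube, one_pow]

open Classical in
variable (K) in
/-- parameters of the unipotent radical -/
noncomputable def PP : Finset (K × K) :=
  univ.filter (fun x => x.2 + bar x.2 + x.1 * bar x.1 = 0)

theorem mem_PP {x : K × K} : x ∈ PP K ↔ x.2 + bar x.2 + x.1 * bar x.1 = 0 := by simp [PP]

theorem om_mem_PP (b : K) : (b, b * bar b * om K) ∈ PP K := by
  rw [mem_PP]
  simp only [map_mul, bar_bar]
  linear_combination (b * bar b) * om_add_bar (K := K)

variable (K) in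
theorem card_PP : (PP K).card = qq K ^ 3 := by
  classical
  have : (PP K).card = ((univ : Finset K) ×ˢ FF K).card := by
    apply Finset.card_nbij' (fun x => (x.1, x.2 - x.1 * bar x.1 * om K))
      (fun x => (x.1, x.2 + x.1 * bar x.1 * om K))
    · intro x hx
      rw [mem_coe, mem_PP] at hx
      simp only [coe_product, coe_univ, Set.mem_prod, Set.mem_univ, mem_coe, mem_FF, true_and,
        map_sub, map_mul, bar_bar]
      linear_combination hx - (x.1 * bar x.1) * om_add_bar (K := K) +
        (x.1 * bar x.1 * om K - x.2) * two_eq_zero K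
    · intro x hx
      simp only [coe_product, coe_univ, Set.mem_prod, Set.mem_univ, mem_coe, mem_FF,
        true_and] at hx
      rw [mem_coe, mem_PP]
      simp only [map_add, map_mul, bar_bar]
      linear_combination hx + (x.1 * bar x.1) * om_add_bar (K := K) + x.2 * two_eq_zero K
    · intro x _
      simp
    · intro x _
      simp
  rw [this, card_product, card_univ, card_K, card_FF]; ring

end Pool.Agent.MP_18be4d_al
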