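import Pool.Agent.MP_18be4d_al.Action

/-! The counterexample. -/

open CategoryTheory

namespace Pool.Agent.MP_18be4d_al

theorem prime_p : Nat.Prime 96076791871613611 := by
  apply lucas_primality 96076791871613611 (13 : ZMod 96076791871613611)
  · norm_num
    reduce_mod_char
  · intro q hq hd
    have e : 96076791871613611 - 1 = 2 * 3 * 5 * 29 * 43 * 59 * 113 * 127 * 3033169 := by norm_num
    rw [e] at hd
    simp only [Nat.Prime.dvd_mul hq] at hd
    rcases hd with ((((((((h | h) | h) | h) | h) | h) | h) | h) | h) <;>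
      rw [(Nat.prime_dvd_prime_iff_eq hq (by norm_num)).1 h] <;> norm_num <;> reduce_mod_char <;>
      decide

/-- the field with `2 ^ 58` elements -/
abbrev KK : Type := GaloisField 2 58

noncomputable instance : Fintype KK := Fintype.ofFinite _

theorem card_KK : Fintype.card KK = 2 ^ 58 := by
  rw [← Nat.card_eq_fintype_card, GaloisField.card 2 58 (by norm_num)]

noncomputable instance : UF KK where
  f := 29
  char2 := inferInstance
  card_eq := by rw [card_KK, ← pow_mul]
  odd_f := by decide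

theorem qq_KK : qq KK = 2 ^ 29 := rfl

theorem card_gal : Nat.card (KK ≃ₐ[ZMod 2] KK) = 58 := by
  rw [IsGalois.card_aut_eq_finrank, GaloisField.finrank 2 (by norm_num)]

theorem fix_KK (ρ : KK ≃ₐ[ZMod 2] KK) (h1 : ρ ≠ 1) (t : KK) (h : ρ (t ^ 3) = t ^ 3) :
    bar (t ^ 3) = t ^ 3 := by
  obtain ⟨⟨i, hi⟩, rfl⟩ := (FiniteField.bijective_frobeniusAlgEquivOfAlgebraic_pow (ZMod 2) KK).2 ρ
  rw [GaloisField.finrank 2 (by norm_num)] at hi
  have hi0 : i ≠ 0 := by
    rintro rfl
    exact h1 (pow_zero _)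
  let F : KK → KK := fun x => x ^ 2
  have hF : ∀ n (x : KK), F^[n] x = x ^ 2 ^ n := by
    intro n x
    induction n with
    | zero => simp
    | succ n ih => rw [Function.iterate_succ_apply', ih, pow_succ, pow_mul]
  have p1 : Function.IsPeriodicPt F i (t ^ 3) := by
    change F^[i] _ = _
    rw [hF]
    simp only [AlgEquiv.coe_pow, FiniteField.coe_frobeniusAlgEquivOfAlgebraic_iterate,
      ZMod.card] at h
    exact h
  have p2 : ∀ x : KK, Function.IsPeriodicPt F 58 x := by
    intro x
    change F^[58] _ = _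
    rw [hF, ← card_KK, FiniteField.pow_card]
  have p3 := p1.gcd (p2 _)
  have hg : Nat.gcd i 58 ∣ 29 ∨ Nat.gcd i 58 = 2 := by
    interval_cases i <;> first | exact absurd rfl hi0 | decide
  rcases hg with hg | hg
  · have p4 := p3.trans_dvd hg
    rw [bar_apply, qq_KK, ← hF]
    exact p4
  · rw [hg] at p3
    have p4 : (t ^ 3) ^ 2 ^ 2 = t ^ 3 := by rw [← hF]; exact p3
    by_cases t0 : t = 0
    · simp [t0]
    · have h9 : t ^ 9 = 1 := by
        apply mul_left_cancel₀ (pow_ne_zero 3 t0)
        rw [mul_one, ← p4]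
        nth_rewrite 1 [p4]
        ring
      have h2 := FiniteField.pow_card_sub_one_eq_one t t0
      rw [card_KK] at h2
      have h3 : t ^ 3 = 1 := by
        have := (pow_gcd_eq_one (a := t) (m := 9) (n := 2 ^ 58 - 1)).2 ⟨h9, h2⟩
        have e : Nat.gcd 9 (2 ^ 58 - 1) = 3 := by norm_num
        rwa [e] at this
      rw [h3, map_one]

theorem logb_le : Real.logb 2 (96076791871613611 : ℕ) ≤ 113 / 2 := by
  rw [Real.logb_le_iff_le_rpow (by norm_num) (by norm_num)]
  apply (pow_le_pow_iff_left₀ (by positivity) (by positivity) two_ne_zero).1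
  rw [← Real.rpow_natCast ((2 : ℝ) ^ (113 / 2 : ℝ)), ← Real.rpow_mul (by norm_num)]
  have : (113 / 2 : ℝ) * (2 : ℕ) = (113 : ℕ) := by norm_num
  rw [this, Real.rpow_natCast]
  norm_num

theorem main : ∃ (p : ℕ) (G : Type) (_ : Group G) (_ : Finite G), p.Prime ∧
    (∀ g : G, (∀ V : FDRep ℂ G, Simple V → ¬ p ∣ Module.finrank ℂ V →
      V.character g = V.character 1) → g = 1) ∧
    (∃ F : Subgroup G, IsGreatest {N : Subgroup G | N.Normal ∧ Group.IsNilpotent N} F ∧
      p ∣ F.index) ∧
    (Nat.card (ConjClasses G) : ℝ) < p / Real.logb 2 p := by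
  have hΩ : Fintype.card (Om KK) = 3 * 96076791871613611 * (2 ^ 29 + 1) := by
    rw [card_Om, qq_KK]; norm_num
  have : Nontrivial (Om KK) := Fintype.one_lt_card_iff_nontrivial.1 (by rw [hΩ]; norm_num)
  have hp : 96076791871613611 ∣ Fintype.card (Om KK) := by
    rw [hΩ]; exact Dvd.dvd.mul_right (Dvd.intro_left 3 rfl) _
  have h3 : 3 ∣ Fintype.card (Om KK) := by
    rw [hΩ]; exact Dvd.dvd.mul_right (Dvd.intro _ rfl) _
  refine ⟨96076791871613611, GG KK, inferInstance, inferInstance, prime_p, ?_, ?_, ?_⟩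
  · intro g hg
    obtain ⟨V, hV, hd, hk⟩ := exists_simple (twoTrans_GG KK)
    apply hk g (hg V hV ?_)
    intro hdvd
    rw [← hd] at hp
    exact prime_p.one_lt.ne' (Nat.dvd_one.1 ((Nat.dvd_add_right hdvd).1 hp))
  · refine ⟨⊥, ⟨⟨inferInstance, inferInstance⟩, ?_⟩, ?_⟩
    · intro N hN
      exact (nilpotent_normal_eq_bot (twoTrans_GG KK) 3 _ Nat.prime_three prime_p (by norm_num)
        h3 hp N hN.1 hN.2).le
    · rw [Subgroup.index_bot]
      exact hp.trans (card_dvd_of_trans (twoTrans_GG KK))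
  · have h := class_number_GG (K := KK) 58 card_gal fix_KK
    rw [qq_KK] at h
    refine lt_of_le_of_lt h ?_
    have hl : 0 < Real.logb 2 (96076791871613611 : ℕ) := Real.logb_pos (by norm_num) (by norm_num)
    refine lt_of_lt_of_le ?_ (div_le_div_of_nonneg_left (by norm_num) hl logb_le)
    norm_num

end Pool.Agent.MP_18be4d_al
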