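import Pool.Agent.MP_18be4d_al.Field

/-! The special unitary group in dimension three. -/

open Finset Matrix

set_option linter.unusedSectionVars false

namespace Pool.Agent.MP_18be4d_al

/-- the Gram matrix -/
def JJ (R : Type) [Zero R] [One R] : Matrix (Fin 3) (Fin 3) R := !![0, 0, 1; 0, 1, 0; 1, 0, 0]

variable {K : Type} [Field K] [Fintype K] [UF K]

/-- the Hermitian form -/
def HF (u v : Fin 3 → K) : K := u 0 * bar (v 2) + u 1 * bar (v 1) + u 2 * bar (v 0)

/-- unitary matrices -/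
def IsU (M : Matrix (Fin 3) (Fin 3) K) : Prop := Mᵀ * JJ K * M.map bar = JJ K

theorem isU_one : IsU (1 : Matrix (Fin 3) (Fin 3) K) := by
  rw [IsU, transpose_one, Matrix.map_one _ (map_zero _) (map_one _), Matrix.mul_one,
    Matrix.one_mul]

theorem isU_mul {a b : Matrix (Fin 3) (Fin 3) K} (ha : IsU a) (hb : IsU b) : IsU (a * b) := by
  simp only [IsU, transpose_mul, Matrix.map_mul] at ha hb ⊢
  calc bᵀ * aᵀ * JJ K * (a.map bar * b.map bar)
      = bᵀ * (aᵀ * JJ K * a.map bar) * b.map bar := by simp only [Matrix.mul_assoc]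
    _ = JJ K := by rw [ha, hb]

theorem isU_inv {a b : Matrix (Fin 3) (Fin 3) K} (ha : IsU a) (h1 : a * b = 1) : IsU b := by
  simp only [IsU] at ha ⊢
  calc bᵀ * JJ K * b.map bar = bᵀ * (aᵀ * JJ K * a.map bar) * b.map bar := by rw [ha]
    _ = (a * b)ᵀ * JJ K * (a * b).map bar := by
        simp only [transpose_mul, Matrix.map_mul, Matrix.mul_assoc]
    _ = JJ K := by rw [h1]; exact isU_one

variable (K) in
/-- the special unitary group -/
def SU : Subgroup (SpecialLinearGroup (Fin 3) K) where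
  carrier := {a | IsU a.1}
  one_mem' := isU_one
  mul_mem' := fun ha hb => isU_mul ha hb
  inv_mem' := fun {a} ha => isU_inv ha (congrArg Subtype.val (mul_inv_cancel a))

noncomputable instance : Fintype (SU K) := by
  classical
  exact Fintype.ofFinite _

/-- the matrix of a unitary element -/
def mat (a : SU K) : Matrix (Fin 3) (Fin 3) K := a.1.1

theorem mat_mul (a b : SU K) : mat (a * b) = mat a * mat b := rfl

theorem mat_one : mat (1 : SU K) = 1 := rfl

theorem mat_inj {a b : SU K} (h : mat a = mat b) : a = b := Subtype.ext (Subtype.ext h)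

theorem det_mat (a : SU K) : (mat a).det = 1 := a.1.2

theorem mat_unit (a : SU K) : (mat a)ᵀ * JJ K * (mat a).map bar = JJ K := a.2

theorem mat_mul_inv (a : SU K) : mat a * mat a⁻¹ = 1 := by rw [← mat_mul, mul_inv_cancel, mat_one]

theorem mat_inv_mul (a : SU K) : mat a⁻¹ * mat a = 1 := by rw [← mat_mul, inv_mul_cancel, mat_one]

theorem mat_inv (a : SU K) : mat a⁻¹ = adjugate (mat a) := rfl

/-- constructor -/
def mkSU (M : Matrix (Fin 3) (Fin 3) K) (h1 : M.det = 1) (h2 : Mᵀ * JJ K * M.map bar = JJ K) :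
    SU K := ⟨⟨M, h1⟩, h2⟩

@[simp] theorem mat_mkSU (M : Matrix (Fin 3) (Fin 3) K) (h1 : M.det = 1)
    (h2 : Mᵀ * JJ K * M.map bar = JJ K) : mat (mkSU M h1 h2) = M := rfl

theorem unit_apply (M : Matrix (Fin 3) (Fin 3) K) (i j : Fin 3) :
    (Mᵀ * JJ K * M.map bar) i j =
      M 0 i * bar (M 2 j) + M 1 i * bar (M 1 j) + M 2 i * bar (M 0 j) := by
  simp [Matrix.mul_apply, Fin.sum_univ_three, JJ]
  ring

theorem unit_entry (a : SU K) (i j : Fin 3) :
    mat a 0 i * bar (mat a 2 j) + mat a 1 i * bar (mat a 1 j) + mat a 2 i * bar (mat a 0 j) =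
      JJ K i j := by
  rw [← unit_apply, mat_unit]

theorem HF_mat (a : SU K) (u v : Fin 3 → K) : HF (mat a *ᵥ u) (mat a *ᵥ v) = HF u v := by
  have h00 := unit_entry a 0 0
  have h01 := unit_entry a 0 1
  have h02 := unit_entry a 0 2
  have h10 := unit_entry a 1 0
  have h11 := unit_entry a 1 1
  have h12 := unit_entry a 1 2
  have h20 := unit_entry a 2 0
  have h21 := unit_entry a 2 1
  have h22 := unit_entry a 2 2
  simp [JJ] at h00 h01 h02 h10 h11 h12 h20 h21 h22
  simp only [HF, mulVec, dotProduct, Fin.sum_univ_three, map_add, map_mul]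
  linear_combination u 0 * bar (v 0) * h00 + u 0 * bar (v 1) * h01 + u 0 * bar (v 2) * h02 +
    u 1 * bar (v 0) * h10 + u 1 * bar (v 1) * h11 + u 1 * bar (v 2) * h12 +
    u 2 * bar (v 0) * h20 + u 2 * bar (v 1) * h21 + u 2 * bar (v 2) * h22

theorem HF_smul_left (c : K) (u v : Fin 3 → K) : HF (c • u) v = c * HF u v := by
  simp only [HF, Pi.smul_apply, smul_eq_mul]; ring

theorem HF_smul_right (c : K) (u v : Fin 3 → K) : HF u (c • v) = bar c * HF u v := by
  simp only [HF, Pi.smul_apply, smul_eq_mul, map_mul]; ring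

theorem HF_add_left (u u' v : Fin 3 → K) : HF (u + u') v = HF u v + HF u' v := by
  simp only [HF, Pi.add_apply]; ring

theorem HF_add_right (u v v' : Fin 3 → K) : HF u (v + v') = HF u v + HF u v' := by
  simp only [HF, Pi.add_apply, map_add]; ring

theorem HF_sub_left (u u' v : Fin 3 → K) : HF (u - u') v = HF u v - HF u' v := by
  simp only [HF, Pi.sub_apply]; ring

theorem bar_HF (u v : Fin 3 → K) : bar (HF u v) = HF v u := by
  simp only [HF, map_add, map_mul, bar_bar]; ring

/-- unipotent elements -/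
def uu (b c : K) (h : (b, c) ∈ PP K) : SU K :=
  mkSU !![1, -bar b, c; 0, 1, b; 0, 0, 1] (by simp [det_fin_three]) (by
    have h' := mem_PP.1 h
    ext i j
    rw [unit_apply]
    fin_cases i <;> fin_cases j <;> simp [JJ]
    linear_combination h')

/-- torus elements -/
def tt (l : K) (h : l ≠ 0) : SU K :=
  mkSU !![l, 0, 0; 0, bar l * l⁻¹, 0; 0, 0, (bar l)⁻¹] (by
    have h' : bar l ≠ 0 := fun h0 => h (bar_eq_zero.1 h0)
    simp [det_fin_three]
    field_simp) (by
    have h' : bar l ≠ 0 := fun h0 => h (bar_eq_zero.1 h0)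
    ext i j
    rw [unit_apply]
    fin_cases i <;> fin_cases j <;> simp [JJ, h, h']
    field_simp)

variable (K) in
/-- the Weyl element -/
def ww : SU K :=
  mkSU !![0, 0, 1; 0, -1, 0; 1, 0, 0] (by simp [det_fin_three]) (by
    ext i j
    rw [unit_apply]
    fin_cases i <;> fin_cases j <;> simp [JJ])

/-- scalar elements -/
def zz (z : K) (h : z ^ 3 = 1) : SU K :=
  mkSU (z • (1 : Matrix (Fin 3) (Fin 3) K)) (by simp [h]) (by
    have h' := mul_bar_of_cube h
    ext i j
    rw [unit_apply]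
    fin_cases i <;> fin_cases j <;> simp [JJ, h'])

theorem mat_uu (b c : K) (h : (b, c) ∈ PP K) :
    mat (uu b c h) = !![1, -bar b, c; 0, 1, b; 0, 0, 1] := rfl

theorem mat_tt (l : K) (h : l ≠ 0) :
    mat (tt l h) = !![l, 0, 0; 0, bar l * l⁻¹, 0; 0, 0, (bar l)⁻¹] := rfl

theorem mat_ww : mat (ww K) = !![0, 0, 1; 0, -1, 0; 1, 0, 0] := rfl

theorem mat_zz (z : K) (h : z ^ 3 = 1) : mat (zz z h) = z • (1 : Matrix (Fin 3) (Fin 3) K) := rfl

/-- first basis vector -/
def e0 (K : Type) [Zero K] [One K] : Fin 3 → K := ![1, 0, 0]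

/-- last basis vector -/
def e2 (K : Type) [Zero K] [One K] : Fin 3 → K := ![0, 0, 1]

theorem ww_e0 : mat (ww K) *ᵥ e0 K = e2 K := by
  ext i; fin_cases i <;> simp [mat_ww, e0, e2, mulVec, dotProduct, Fin.sum_univ_three]

theorem uu_e0 (b c : K) (h : (b, c) ∈ PP K) : mat (uu b c h) *ᵥ e0 K = e0 K := by
  ext i; fin_cases i <;> simp [mat_uu, e0, mulVec, dotProduct, Fin.sum_univ_three]

theorem uu_e2 (b c : K) (h : (b, c) ∈ PP K) : mat (uu b c h) *ᵥ e2 K = ![c, b, 1] := by
  ext i; fin_cases i <;> simp [mat_uu, e2, mulVec, dotProduct, Fin.sum_univ_three]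

theorem iso_cases (v : Fin 3 → K) (h0 : v ≠ 0) (hv : HF v v = 0) :
    (∃ d : K, d ≠ 0 ∧ v = d • e0 K) ∨
      ∃ d : K, d ≠ 0 ∧ ∃ b c : K, (b, c) ∈ PP K ∧ v = d • ![c, b, 1] := by
  by_cases h2 : v 2 = 0
  · left
    have h1 : v 1 = 0 := by
      simp only [HF, h2, map_zero, mul_zero, zero_mul, zero_add, add_zero, mul_eq_zero,
        bar_eq_zero, or_self] at hv
      exact hv
    refine ⟨v 0, ?_, ?_⟩
    · intro h
      apply h0
      ext i; fin_cases i <;> simp [h, h1, h2]
    · ext i; fin_cases i <;> simp [e0, h1, h2]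
  · right
    have h2' : bar (v 2) ≠ 0 := fun h0 => h2 (bar_eq_zero.1 h0)
    refine ⟨v 2, h2, v 1 / v 2, v 0 / v 2, ?_, ?_⟩
    · rw [mem_PP]
      simp only [map_div₀]
      field_simp
      simp only [HF] at hv
      linear_combination hv
    · ext i; fin_cases i <;> simp <;> field_simp

theorem trans_iso (v : Fin 3 → K) (h0 : v ≠ 0) (hv : HF v v = 0) :
    ∃ g : SU K, ∃ d : K, d ≠ 0 ∧ v = d • (mat g *ᵥ e0 K) := by
  rcases iso_cases v h0 hv with ⟨d, hd, h⟩ | ⟨d, hd, b, c, hbc, h⟩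
  · exact ⟨1, d, hd, by rw [mat_one, one_mulVec, h]⟩
  · exact ⟨uu b c hbc * ww K, d, hd, by rw [mat_mul, ← mulVec_mulVec, ww_e0, uu_e2, h]⟩

/-- trace -/
def tr (a : SU K) : K := (mat a).trace

theorem tr_conj (g a : SU K) : tr (g * a * g⁻¹) = tr a := by
  rw [tr, mat_mul, mat_mul, trace_mul_cycle, mat_inv_mul, Matrix.one_mul, tr]

theorem tr_zz_mul (z : K) (h : z ^ 3 = 1) (a : SU K) : tr (zz z h * a) = z * tr a := by
  rw [tr, mat_mul, mat_zz, Matrix.smul_mul, Matrix.one_mul, trace_smul, smul_eq_mul, tr]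

theorem JJ_mul_JJ (R : Type) [CommRing R] : JJ R * JJ R = 1 := by
  ext i j
  fin_cases i <;> fin_cases j <;> simp [JJ, Matrix.mul_apply, Fin.sum_univ_three]

theorem bar_tr (a : SU K) : bar (tr a) = (adjugate (mat a)).trace := by
  have h1 : (mat a).map bar = JJ K * (mat a⁻¹)ᵀ * JJ K := by
    conv_rhs => rw [← mat_unit a]
    rw [mat_unit a]
    calc (mat a).map bar = JJ K * (mat a * mat a⁻¹)ᵀ * JJ K * (mat a).map bar := by
          rw [mat_mul_inv, transpose_one, Matrix.mul_one, JJ_mul_JJ, Matrix.one_mul]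
      _ = JJ K * (mat a⁻¹)ᵀ * ((mat a)ᵀ * JJ K * (mat a).map bar) := by
          simp only [transpose_mul, Matrix.mul_assoc]
      _ = _ := by rw [mat_unit]
  have h2 : bar (tr a) = ((mat a).map bar).trace := by
    simp [tr, trace, map_sum]
  rw [h2, h1, trace_mul_cycle, JJ_mul_JJ, Matrix.one_mul, trace_transpose, mat_inv]

theorem det_sub_three {R : Type} [CommRing R] (M : Matrix (Fin 3) (Fin 3) R) (x : R) :
    (x • (1 : Matrix (Fin 3) (Fin 3) R) - M).det =
      x ^ 3 - M.trace * x ^ 2 + (adjugate M).trace * x - M.det := by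
  simp [det_fin_three, adjugate_fin_three, trace_fin_three]
  ring

theorem cayley_three {R : Type} [CommRing R] (M : Matrix (Fin 3) (Fin 3) R) :
    M * M * M - M.trace • (M * M) + (adjugate M).trace • M -
      M.det • (1 : Matrix (Fin 3) (Fin 3) R) = 0 := by
  ext i j
  fin_cases i <;> fin_cases j <;>
    simp [det_fin_three, adjugate_fin_three, trace_fin_three, Matrix.mul_apply,
      Fin.sum_univ_three] <;> ring

end Pool.Agent.MP_18be4d_al
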